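import Mathlib

open TensorProduct

namespace Pool.Agent.Schubert

/-- Elements of a flat algebra over a local ring which are linearly independent modulo the maximal
ideal are linearly independent. -/
lemma linearIndependent_of_flat_local {R B k₀ K ι : Type} [CommRing R] [IsLocalRing R]
    [CommRing B] [Algebra R B] [Module.Flat R B] [Field k₀] [CommRing K] [Algebra k₀ K]
    (φ : R →+* k₀) (hφ : ∀ r ∈ IsLocalRing.maximalIdeal R, φ r = 0) (β : B →+* K)
    (hcomm : ∀ r, β (algebraMap R B r) = algebraMap k₀ K (φ r))
    (v : ι → B) (hv : LinearIndependent k₀ (fun i => β (v i))) : LinearIndependent R v := by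
  apply Module.IsLocalRing.linearIndependent_of_flat
  let φ' : IsLocalRing.ResidueField R →+* k₀ :=
    Ideal.Quotient.lift (IsLocalRing.maximalIdeal R) φ hφ
  let _ : Algebra (IsLocalRing.ResidueField R) k₀ := φ'.toAlgebra
  let _ : Algebra (IsLocalRing.ResidueField R) K := ((algebraMap k₀ K).comp φ').toAlgebra
  let _ : Algebra R K := ((algebraMap k₀ K).comp φ).toAlgebra
  have _ : IsScalarTower (IsLocalRing.ResidueField R) k₀ K := IsScalarTower.of_algebraMap_eq' rfl
  have _ : IsScalarTower R (IsLocalRing.ResidueField R) K := IsScalarTower.of_algebraMap_eq' rfl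
  have h1 : LinearIndependent (IsLocalRing.ResidueField R) (fun i => β (v i)) :=
    hv.restrict_scalars (by
      intro a b h
      have := (algebraMap (IsLocalRing.ResidueField R) k₀).injective
      apply this
      simpa [Algebra.smul_def] using h)
  let βl : B →ₐ[R] K := { β with commutes' := hcomm }
  let l : (IsLocalRing.ResidueField R) ⊗[R] B →ₐ[IsLocalRing.ResidueField R] K :=
    Algebra.TensorProduct.lift (Algebra.ofId (IsLocalRing.ResidueField R) K) βl
      (fun _ _ => .all _ _)
  have hl : ∀ b : B, l ((1 : IsLocalRing.ResidueField R) ⊗ₜ b) = β b := by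
    intro b
    change (Algebra.TensorProduct.lift (Algebra.ofId (IsLocalRing.ResidueField R) K) βl
      (fun _ _ => .all _ _)) ((1 : IsLocalRing.ResidueField R) ⊗ₜ b) = β b
    rw [Algebra.TensorProduct.lift_tmul, map_one, one_mul]
    rfl
  refine LinearIndependent.of_comp l.toLinearMap ?_
  have h2 : (l.toLinearMap ∘ (TensorProduct.mk R (IsLocalRing.ResidueField R) B 1) ∘ v) =
      fun i => β (v i) := by
    funext i
    exact hl (v i)
  rw [h2]
  exact h1

/-- Algebraic independence in terms of linear independence of monomials. -/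
lemma algebraicIndependent_iff_monomials {R B ι : Type} [CommRing R] [CommRing B] [Algebra R B]
    (x : ι → B) : AlgebraicIndependent R x ↔
      LinearIndependent R (fun m : ι →₀ ℕ => m.prod (fun i k => x i ^ k)) := by
  have h1 : (fun m : ι →₀ ℕ => m.prod (fun i k => x i ^ k)) =
      (MvPolynomial.aeval (R := R) x).toLinearMap ∘ (MvPolynomial.basisMonomials ι R) := by
    funext m
    simp [MvPolynomial.aeval_monomial]
  rw [h1]
  constructor
  · intro h
    exact (MvPolynomial.basisMonomials ι R).linearIndependent.map'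
      (MvPolynomial.aeval (R := R) x).toLinearMap (LinearMap.ker_eq_bot.2 h)
  · intro h
    rw [AlgebraicIndependent]
    have h2 := (MvPolynomial.basisMonomials ι R).injective_constr_of_linearIndependent
      (R₂ := R) h
    have h3 : (MvPolynomial.basisMonomials ι R).constr R
      ((MvPolynomial.aeval (R := R) x).toLinearMap ∘ (MvPolynomial.basisMonomials ι R)) =
        (MvPolynomial.aeval (R := R) x).toLinearMap := Module.Basis.constr_self _ _ _
    rw [h3] at h2
    exact h2

lemma algebraicIndependent_of_flat_local {R B k₀ K ι : Type} [CommRing R] [IsLocalRing R]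
    [CommRing B] [Algebra R B] [Module.Flat R B] [Field k₀] [CommRing K] [Algebra k₀ K]
    (φ : R →+* k₀) (hφ : ∀ r ∈ IsLocalRing.maximalIdeal R, φ r = 0) (β : B →+* K)
    (hcomm : ∀ r, β (algebraMap R B r) = algebraMap k₀ K (φ r))
    (x : ι → B) (hx : AlgebraicIndependent k₀ (fun i => β (x i))) : AlgebraicIndependent R x := by
  rw [algebraicIndependent_iff_monomials] at hx ⊢
  apply linearIndependent_of_flat_local φ hφ β hcomm
  have h1 : (fun m : ι →₀ ℕ => β (m.prod (fun i k => x i ^ k))) =
      fun m : ι →₀ ℕ => m.prod (fun i k => β (x i) ^ k) := by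
    funext m
    simp [Finsupp.prod]
  rw [h1]
  exact hx

/-- If `x` is algebraically independent in `B` over `R` and `B → L` has nil kernel, where `L` is a
field, then the images are algebraically independent over the image of `R`. -/
lemma algebraicIndependent_of_nil {R B L ι : Type} [CommRing R] [CommRing B] [Algebra R B]
    [Field L] (γ : B →+* L) (hγ : ∀ b, γ b = 0 → IsNilpotent b) (ρ : R →+* L)
    (hρ : ∀ r, γ (algebraMap R B r) = ρ r)
    (x : ι → B) (hx : AlgebraicIndependent R x) :
    AlgebraicIndependent ρ.range (fun i => γ (x i)) := by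
  rw [algebraicIndependent_iff]
  intro q hq
  obtain ⟨p, rfl⟩ := MvPolynomial.map_surjective (σ := ι) ρ.rangeRestrict
    ρ.rangeRestrict_surjective q
  have h1 : γ (MvPolynomial.aeval x p) = 0 := by
    rw [← hq]
    have h2 : (γ.comp (MvPolynomial.aeval x : MvPolynomial ι R →ₐ[R] B).toRingHom) =
      ((MvPolynomial.aeval (fun i => γ (x i)) : MvPolynomial ι ρ.range →ₐ[ρ.range] L).toRingHom).comp
        (MvPolynomial.map ρ.rangeRestrict) := by
      apply MvPolynomial.ringHom_ext
      · intro r
        simp only [AlgHom.toRingHom_eq_coe, RingHom.comp_apply, RingHom.coe_coe,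
          MvPolynomial.aeval_C, MvPolynomial.map_C, hρ]
        rfl
      · intro i
        simp
    exact congr($h2 p)
  obtain ⟨N, hN⟩ := hγ _ h1
  rw [← map_pow] at hN
  have h3 : p ^ N = 0 := by
    apply hx
    rw [hN, map_zero]
  have h4 : (MvPolynomial.map ρ.rangeRestrict p) ^ N = 0 := by
    rw [← map_pow, h3, map_zero]
  exact eq_zero_of_pow_eq_zero h4

/-- A valuation ring dominating the image of a local ring `R` in a field `L` for which given
algebraically independent elements are units. -/
lemma exists_valuationSubring {R L ι : Type} [CommRing R] [IsLocalRing R] [Field L]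
    (ρ : R →+* L) (x : ι → L) (hx : AlgebraicIndependent ρ.range x) :
    ∃ V : ValuationSubring L, (∀ r, ρ r ∈ V) ∧
      (∀ r ∈ IsLocalRing.maximalIdeal R, ρ r ∈ V.nonunits) ∧
      (∀ i, x i ∈ V ∧ x i ∉ V.nonunits) := by
  let κ := IsLocalRing.ResidueField R
  let Ev : MvPolynomial ι R →+* κ := MvPolynomial.eval₂Hom (IsLocalRing.residue R) (fun _ => 1)
  let Φ : MvPolynomial ι R →+* L := MvPolynomial.eval₂Hom ρ x
  have hΦ : ∀ p, Φ p = 0 → Ev p = 0 := by
    intro p hp
    have h1 : Φ = ((MvPolynomial.aeval x : MvPolynomial ι ρ.range →ₐ[ρ.range] L).toRingHom).comp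
        (MvPolynomial.map ρ.rangeRestrict) := by
      apply MvPolynomial.ringHom_ext
      · intro r
        simp only [Φ, AlgHom.toRingHom_eq_coe, RingHom.comp_apply, RingHom.coe_coe,
          MvPolynomial.aeval_C, MvPolynomial.map_C, MvPolynomial.coe_eval₂Hom,
          MvPolynomial.eval₂_C]
        rfl
      · intro i
        simp [Φ]
    have h2 : MvPolynomial.map ρ.rangeRestrict p = 0 := by
      apply hx
      rw [map_zero, ← hp, h1]
      rfl
    have h3 : ∀ m, IsLocalRing.residue R (p.coeff m) = 0 := by
      intro m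
      rw [IsLocalRing.residue_eq_zero_iff, IsLocalRing.mem_maximalIdeal, mem_nonunits_iff]
      intro hu
      have h4 := congrArg (MvPolynomial.coeff m) h2
      rw [MvPolynomial.coeff_map, MvPolynomial.coeff_zero] at h4
      have h5 : ρ (p.coeff m) = 0 := congrArg Subtype.val h4
      exact (hu.map ρ).ne_zero h5
    simp only [Ev, MvPolynomial.coe_eval₂Hom, MvPolynomial.eval₂_eq]
    exact Finset.sum_eq_zero fun m _ => by rw [h3, zero_mul]
  let I : Ideal Φ.range := (RingHom.ker Ev).map Φ.rangeRestrict
  have hI : I ≠ ⊤ := by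
    intro htop
    have h1 : (1 : Φ.range) ∈ I := by rw [htop]; trivial
    rw [Ideal.mem_map_iff_of_surjective _ Φ.rangeRestrict_surjective] at h1
    obtain ⟨p, hp, hp1⟩ := h1
    have h2 : Φ (p - 1) = 0 := by
      rw [map_sub, map_one, sub_eq_zero]
      exact congrArg Subtype.val hp1
    have h3 := hΦ _ h2
    rw [map_sub, map_one, RingHom.mem_ker.1 hp, zero_sub, neg_eq_zero] at h3
    exact one_ne_zero h3
  obtain ⟨V, hV1, hV2⟩ := Ideal.image_subset_nonunits_valuationSubring I hI
  have hmem : ∀ p, Φ p ∈ V := fun p => hV1 ⟨p, rfl⟩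
  have hker : ∀ p, Ev p = 0 → Φ p ∈ V.nonunits := by
    intro p hp
    exact hV2 ⟨Φ.rangeRestrict p, Ideal.mem_map_of_mem _ hp, rfl⟩
  refine ⟨V, fun r => ?_, fun r hr => ?_, fun i => ⟨?_, ?_⟩⟩
  · have := hmem (MvPolynomial.C r)
    simpa [Φ] using this
  · have := hker (MvPolynomial.C r) (by
      have h0 := (IsLocalRing.residue_eq_zero_iff r).2 hr
      simp only [Ev, MvPolynomial.coe_eval₂Hom, MvPolynomial.eval₂_C]
      exact h0)
    simpa [Φ] using this
  · have := hmem (MvPolynomial.X i)
    simpa [Φ] using this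
  · intro hnon
    have h1 := hker (MvPolynomial.X i - 1) (by simp [Ev])
    have h2 : Φ (MvPolynomial.X i - 1) = x i - 1 := by simp [Φ]
    rw [h2] at h1
    rw [ValuationSubring.mem_nonunits_iff] at h1 hnon
    have h3 : V.valuation 1 < 1 := by
      have : (1 : L) = x i - (x i - 1) := by ring
      rw [this]
      exact lt_of_le_of_lt (V.valuation.map_sub _ _) (max_lt hnon h1)
    simp at h3

end Pool.Agent.Schubert
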