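import Pool.Agent.Schubert.Defs

open RingTheory.Sequence

namespace Pool.Agent.Schubert

/-- In a factorial domain of dimension at most two, every prime ideal is minimal over
an ideal generated by a regular sequence. -/
lemma exists_isWeaklyRegular {P : Type} [CommRing P] [IsDomain P] [UniqueFactorizationMonoid P]
    (hdim : ringKrullDim P ≤ 2) (p : Ideal P) [hp : p.IsPrime] :
    ∃ rs : List P, (∀ r ∈ rs, r ∈ p) ∧ IsWeaklyRegular P rs ∧
      ∀ p' : Ideal P, p'.IsPrime → (∀ r ∈ rs, r ∈ p') → p' ≤ p → p' = p := by
  by_cases h0 : p = ⊥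
  · refine ⟨[], by simp, by simp, fun p' _ _ h => ?_⟩
    subst h0
    exact le_bot_iff.1 h
  obtain ⟨f, hf, hfp⟩ := hp.exists_mem_prime_of_ne_bot h0
  have hf0 : f ≠ 0 := hfp.ne_zero
  by_cases h1 : p = Ideal.span {f}
  · refine ⟨[f], by simpa using hf, ?_, fun p' _ h2 h3 => ?_⟩
    · rw [isWeaklyRegular_singleton_iff]
      intro a b hab
      exact mul_left_cancel₀ hf0 hab
    · apply le_antisymm h3
      rw [h1, Ideal.span_singleton_le_iff_mem]
      exact h2 f (by simp)
  obtain ⟨g, hg, hgf⟩ : ∃ g ∈ p, g ∉ Ideal.span {f} := by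
    by_contra hcon
    push Not at hcon
    exact h1 (le_antisymm hcon ((Ideal.span_singleton_le_iff_mem _).2 hf))
  have hfprime : (Ideal.span {f}).IsPrime := (Ideal.span_singleton_prime hf0).2 hfp
  refine ⟨[f, g], by simp [hf, hg], ?_, fun p' hp' h2 h3 => ?_⟩
  · rw [isWeaklyRegular_cons_iff]
    refine ⟨fun a b hab => mul_left_cancel₀ hf0 hab, ?_⟩
    rw [isWeaklyRegular_singleton_iff]
    refine (isSMulRegular_quotient_iff_mem_of_smul_mem _ g).2 ?_
    intro x hx
    rw [Submodule.mem_smul_pointwise_iff_exists] at hx ⊢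
    obtain ⟨b, -, hb⟩ := hx
    have h4 : g * x ∈ Ideal.span {f} := by
      rw [← smul_eq_mul, ← hb]
      exact Ideal.mul_mem_right _ _ (Ideal.mem_span_singleton_self f)
    obtain ⟨c, hc⟩ := Ideal.mem_span_singleton.1 ((hfprime.mem_or_mem h4).resolve_left hgf)
    exact ⟨c, trivial, hc.symm⟩
  · by_contra hne
    have hlt : p' < p := lt_of_le_of_ne h3 hne
    have hlt2 : Ideal.span {f} < p' := by
      refine lt_of_le_of_ne ((Ideal.span_singleton_le_iff_mem _).2 (h2 f (by simp))) ?_
      intro h
      exact hgf (h ▸ h2 g (by simp))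
    have hlt3 : (⊥ : Ideal P) < Ideal.span {f} := by
      rw [bot_lt_iff_ne_bot, ne_eq, Ideal.span_singleton_eq_bot]
      exact hf0
    have e1 := Ideal.height_add_one_le_of_lt_of_isPrime hlt
    have e2 := Ideal.height_add_one_le_of_lt_of_isPrime hlt2
    have e3 := Ideal.height_add_one_le_of_lt_of_isPrime hlt3
    have e4 : (p.height : WithBot ℕ∞) ≤ 2 := p.height_le_ringKrullDim_of_isPrime.trans hdim
    have e5 : p.height ≤ 2 := WithBot.coe_le_coe.1 e4
    have e6 : (3 : ℕ∞) ≤ p.height := by
      calc (3 : ℕ∞) = 0 + 1 + 1 + 1 := by norm_num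
        _ ≤ (⊥ : Ideal P).height + 1 + 1 + 1 := by gcongr; exact zero_le
        _ ≤ (Ideal.span {f}).height + 1 + 1 := by gcongr
        _ ≤ p'.height + 1 := by gcongr
        _ ≤ p.height := e1
    have e7 : (3 : ℕ∞) ≤ 2 := e6.trans e5
    exact absurd e7 (by norm_num)

/-- A finite flat algebra over a Noetherian factorial domain of dimension at most two is
Cohen–Macaulay. -/
lemma isCohenMacaulayLocalRing_of_finite_flat {P R : Type} [CommRing P] [IsDomain P]
    [UniqueFactorizationMonoid P] [IsNoetherianRing P]
    (hdim : ringKrullDim P ≤ 2) [CommRing R] [Algebra P R] [Module.Finite P R] [Module.Flat P R]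
    (q : Ideal R) [q.IsPrime] : IsCohenMacaulayLocalRing (Localization.AtPrime q) := by
  have hR : IsNoetherianRing R := IsNoetherianRing.of_finite P R
  have hRq : IsNoetherianRing (Localization.AtPrime q) :=
    IsLocalization.isNoetherianRing q.primeCompl _ hR
  obtain ⟨rs, h1, h2, h3⟩ := exists_isWeaklyRegular hdim (q.under P)
  have hflat : Module.Flat R (Localization.AtPrime q) := IsLocalization.flat _ q.primeCompl
  have hflat2 : Module.Flat P (Localization.AtPrime q) := Module.Flat.trans P R _
  have h4 : IsWeaklyRegular (Localization.AtPrime q)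
    (rs.map (algebraMap P (Localization.AtPrime q))) := h2.of_flat
  have h5 : ∀ r ∈ rs.map (algebraMap P (Localization.AtPrime q)),
      r ∈ IsLocalRing.maximalIdeal (Localization.AtPrime q) := by
    intro r hr
    obtain ⟨a, ha, rfl⟩ := List.mem_map.1 hr
    rw [IsScalarTower.algebraMap_apply P R]
    exact (IsLocalization.AtPrime.to_map_mem_maximal_iff _ q _).2 (h1 a ha)
  have h6 := RingTheory.Sequence.IsRegular.of_isWeaklyRegular_of_mem_maximalIdeal
    (Localization.AtPrime q) h5 h4
  refine ⟨hRq, _, h6, ?_⟩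
  rw [← ringKrullDim_add_length_eq_ringKrullDim_of_isRegular _ h6]
  have h7 : ringKrullDim (Localization.AtPrime q ⧸
      Ideal.ofList (rs.map (algebraMap P (Localization.AtPrime q)))) = 0 := by
    have hle : Ideal.ofList (rs.map (algebraMap P (Localization.AtPrime q))) ≤
        IsLocalRing.maximalIdeal _ := Ideal.span_le.2 h5
    have hnt : Nontrivial (Localization.AtPrime q ⧸
        Ideal.ofList (rs.map (algebraMap P (Localization.AtPrime q)))) := by
      apply Ideal.Quotient.nontrivial_iff.2
      intro h
      rw [h, top_le_iff] at hle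
      exact (IsLocalRing.maximalIdeal.isMaximal _).ne_top hle
    rw [← ringKrullDimZero_iff_ringKrullDim_eq_zero]
    apply Ring.KrullDimLE.mk₀
    set K := Ideal.ofList (rs.map (algebraMap P (Localization.AtPrime q))) with hK
    intro J hJ
    have hsurj : Function.Surjective (Ideal.Quotient.mk K) := Ideal.Quotient.mk_surjective
    have hQ : (J.comap (Ideal.Quotient.mk K)).IsPrime := Ideal.comap_isPrime _ _
    have hKQ : K ≤ J.comap (Ideal.Quotient.mk K) := by
      intro x hx
      rw [Ideal.mem_comap, Ideal.Quotient.eq_zero_iff_mem.2 hx]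
      exact J.zero_mem
    have hQle : J.comap (Ideal.Quotient.mk K) ≤ IsLocalRing.maximalIdeal _ :=
      IsLocalRing.le_maximalIdeal hQ.ne_top
    set q' := (J.comap (Ideal.Quotient.mk K)).under R with hq'
    have hq'p : q'.IsPrime := Ideal.comap_isPrime _ _
    have hq'le : q' ≤ q := by
      have h8 : q' ≤ (IsLocalRing.maximalIdeal (Localization.AtPrime q)).under R :=
        Ideal.comap_mono hQle
      rwa [IsLocalization.AtPrime.under_maximalIdeal _ q] at h8
    have hq'P : q'.under P = q.under P := by
      apply h3 _ (Ideal.comap_isPrime _ _)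
      · intro r hr
        have h9 : algebraMap P (Localization.AtPrime q) r ∈ K :=
          Ideal.subset_span (List.mem_map.2 ⟨r, hr, rfl⟩)
        have h10 := hKQ h9
        rw [IsScalarTower.algebraMap_apply P R] at h10
        exact h10
      · exact Ideal.comap_mono hq'le
    have hq'eq : q' = q := by
      by_contra hne
      have h9 : q' < q := lt_of_le_of_ne hq'le hne
      exact (Ideal.IsIntegral.comap_lt_comap (R := P) h9).ne hq'P
    have hmax : J.comap (Ideal.Quotient.mk K) =
        IsLocalRing.maximalIdeal (Localization.AtPrime q) := by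
      rw [← IsLocalization.map_under q.primeCompl _ (J.comap (Ideal.Quotient.mk K)), ← hq',
        hq'eq, Localization.AtPrime.map_eq_maximalIdeal]
    have hmax' : (J.comap (Ideal.Quotient.mk K)).IsMaximal := by
      rw [hmax]
      infer_instance
    have h11 := Ideal.map_eq_top_or_isMaximal_of_surjective _ hsurj hmax'
    rw [Ideal.map_comap_of_surjective _ hsurj] at h11
    exact h11.resolve_left hJ.ne_top
  rw [h7, zero_add]

end Pool.Agent.Schubert
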