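import Pool.Agent.Schubert.Unbundled

open CategoryTheory Limits AlgebraicGeometry TopologicalSpace

namespace Pool.Agent.Schubert

lemma cn_not_mem_iff {n : ℕ} (ε : Fin n → Fin 2)
    (y : Spec (CommRingCat.of (MvPolynomial (Fin n) ℂ))) (i : Fin n) :
    (proj i).left (cn ε y) ∉ P1open ↔ (ε i = 0 ∧ MvPolynomial.X i ∈ y.asIdeal) := by
  rw [← Scheme.Hom.comp_apply, cn_proj, Scheme.Hom.comp_apply]
  rcases (Fin.exists_fin_two (p := fun a => ε i = a)).1 ⟨ε i, rfl⟩ with h | h
  · rw [h, c1_zero_mem_iff, not_not]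
    have h1 : (Polynomial.X : Polynomial ℂ) ∈ (coordA' i y).asIdeal ↔
        MvPolynomial.X i ∈ y.asIdeal := by
      change (Polynomial.eval₂RingHom (MvPolynomial.C : ℂ →+* MvPolynomial (Fin n) ℂ)
        (MvPolynomial.X i)) Polynomial.X ∈ y.asIdeal ↔ _
      rw [Polynomial.coe_eval₂RingHom, Polynomial.eval₂_X]
    rw [h1]
    simp
  · rw [h]
    simp [c1_one_mem]

/-- Coordinates outside of `F` are set to zero. -/
noncomputable def restr {n : ℕ} (F : Finset (Fin n)) :
    MvPolynomial (Fin n) ℂ →ₐ[ℂ] MvPolynomial (Fin n) ℂ :=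
  MvPolynomial.aeval (fun i => if i ∈ F then MvPolynomial.X i else 0)

lemma restr_X {n : ℕ} (F : Finset (Fin n)) (i : Fin n) :
    restr F (MvPolynomial.X i) = if i ∈ F then MvPolynomial.X i else 0 := by
  simp [restr]

/-- A polynomial vanishing on the coordinate subspace of `F` lies in every ideal containing the
coordinates outside of `F`. -/
lemma mem_of_restr_eq_zero {n : ℕ} (F : Finset (Fin n)) (I : Ideal (MvPolynomial (Fin n) ℂ))
    (hI : ∀ i ∉ F, MvPolynomial.X i ∈ I) (f : MvPolynomial (Fin n) ℂ) (hf : restr F f = 0) :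
    f ∈ I := by
  have key : ∀ f : MvPolynomial (Fin n) ℂ, f - restr F f ∈ I := by
    intro f
    induction f using MvPolynomial.induction_on with
    | C a => simp [restr]
    | add p q hp hq =>
      have : p + q - restr F (p + q) = (p - restr F p) + (q - restr F q) := by
        rw [map_add]; ring
      rw [this]
      exact I.add_mem hp hq
    | mul_X p i hp =>
      have : p * MvPolynomial.X i - restr F (p * MvPolynomial.X i) =
          (p - restr F p) * MvPolynomial.X i +
            restr F p * (MvPolynomial.X i - restr F (MvPolynomial.X i)) := by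
        rw [map_mul]; ring
      rw [this]
      refine I.add_mem (I.mul_mem_right _ hp) (I.mul_mem_left _ ?_)
      rw [restr_X]
      split_ifs with h
      · simp
      · simpa using hI i h
  have := key f
  rwa [hf, sub_zero] at this

lemma mem_schubertSet {n : ℕ} (F : Finset (Fin n)) (x : (Pn n).left) :
    x ∈ schubertSet F ↔ ∀ i ∉ F, (proj i).left x ∉ P1open := by
  constructor
  · intro hx i hi
    have h1 : IsClosed ((proj i).left ⁻¹' (P1open : Set P1.left)ᶜ) :=
      P1open.isOpen.isClosed_compl.preimage (proj i).left.continuous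
    have h2 : bruhatCell F ⊆ (proj i).left ⁻¹' (P1open : Set P1.left)ᶜ :=
      fun y hy hyi => hi ((hy i).1 hyi)
    exact closure_minimal h2 h1 hx
  · intro hx
    obtain ⟨ε, hε⟩ := exists_mem_chartOpen x
    rw [← opensRange_chart] at hε
    obtain ⟨y, rfl⟩ := hε
    change ∀ i ∉ F, (proj i).left (cn ε y) ∉ P1open at hx
    change cn ε y ∈ _
    simp only [cn_not_mem_iff] at hx
    have hp : (RingHom.ker (restr F)).IsPrime := RingHom.ker_isPrime _
    let p : PrimeSpectrum (MvPolynomial (Fin n) ℂ) := ⟨RingHom.ker (restr F), hp⟩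
    let p' : Spec (CommRingCat.of (MvPolynomial (Fin n) ℂ)) := p
    have hpy : p' ⤳ y := by
      have h3 : p ⤳ (show PrimeSpectrum (MvPolynomial (Fin n) ℂ) from y) := by
        rw [← PrimeSpectrum.le_iff_specializes]
        intro f hf
        exact mem_of_restr_eq_zero F _ (fun i hi => (hx i hi).2) f hf
      exact h3
    have hcell : cn ε p' ∈ bruhatCell F := by
      intro i
      rw [← not_iff_not, cn_not_mem_iff]
      constructor
      · rintro ⟨-, h4⟩ hi
        have h5 : restr F (MvPolynomial.X i) = 0 := h4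
        rw [restr_X, if_pos hi] at h5
        exact MvPolynomial.X_ne_zero i h5
      · intro hi
        refine ⟨(hx i hi).1, ?_⟩
        have h5 : restr F (MvPolynomial.X i) = 0 := by rw [restr_X, if_neg hi]
        exact h5
    have h6 : cn ε p' ⤳ cn ε y := hpy.map (cn ε).continuous
    rw [specializes_iff_mem_closure] at h6
    exact closure_mono (Set.singleton_subset_iff.2 hcell) h6

lemma mem_schubertUnion {n : ℕ} (S : Finset (Finset (Fin n))) (x : (Pn n).left) :
    x ∈ schubertUnion S ↔ ∃ F ∈ S, ∀ i ∉ F, (proj i).left x ∉ P1open := by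
  change x ∈ ⋃ F ∈ S, schubertSet F ↔ _
  simp only [Set.mem_iUnion, mem_schubertSet]
  constructor
  · rintro ⟨F, hF, hx⟩
    exact ⟨F, hF, hx⟩
  · rintro ⟨F, hF, hx⟩
    exact ⟨F, hF, hx⟩

end Pool.Agent.Schubert
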