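import Pool.Agent.Schubert.P1Chart

open CategoryTheory Limits AlgebraicGeometry TopologicalSpace HomogeneousLocalization

namespace Pool.Agent.Schubert

attribute [local instance] MvPolynomial.gradedAlgebra

section Affine

/-- The ring map corresponding to a morphism to an affine scheme. -/
noncomputable def pb {Z : Scheme.{0}} {R : CommRingCat.{0}} (f : Z ⟶ Spec R) : R ⟶ Γ(Z, ⊤) :=
  (Scheme.ΓSpecIso R).inv ≫ f.appTop

lemma toSpecΓ_map_pb {Z : Scheme.{0}} {R : CommRingCat.{0}} (f : Z ⟶ Spec R) :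
    Z.toSpecΓ ≫ Spec.map (pb f) = f := by
  rw [pb, Spec.map_comp, ← Category.assoc, ← Scheme.toSpecΓ_naturality, Category.assoc,
    toSpecΓ_SpecMap_ΓSpecIso_inv, Category.comp_id]

lemma ext_of_pb {Z : Scheme.{0}} {R : CommRingCat.{0}} {f g : Z ⟶ Spec R} (h : pb f = pb g) :
    f = g := by
  rw [← toSpecΓ_map_pb f, ← toSpecΓ_map_pb g, h]

lemma pb_toSpecΓ_map {Z : Scheme.{0}} {R : CommRingCat.{0}} (φ : R ⟶ Γ(Z, ⊤)) :
    pb (Z.toSpecΓ ≫ Spec.map φ) = φ := by
  simp [pb]

lemma pb_comp_map {Z : Scheme.{0}} {R S : CommRingCat.{0}} (f : Z ⟶ Spec R) (φ : S ⟶ R) :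
    pb (f ≫ Spec.map φ) = φ ≫ pb f := by
  simp [pb]

lemma pb_precomp {Z W : Scheme.{0}} {R : CommRingCat.{0}} (g : W ⟶ Z) (f : Z ⟶ Spec R) :
    pb (g ≫ f) = pb f ≫ g.appTop := by
  simp [pb]

/-- The `i`-th coordinate on affine space. -/
noncomputable def coordA' {n : ℕ} (i : Fin n) :
    Spec (CommRingCat.of (MvPolynomial (Fin n) ℂ)) ⟶ Spec (CommRingCat.of (Polynomial ℂ)) :=
  Spec.map (CommRingCat.ofHom
    (Polynomial.eval₂RingHom (MvPolynomial.C) (MvPolynomial.X i) :
      Polynomial ℂ →+* MvPolynomial (Fin n) ℂ))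

/-- The structure map of affine space. -/
noncomputable def strA (n : ℕ) : Spec (CommRingCat.of (MvPolynomial (Fin n) ℂ)) ⟶ SpecC :=
  Spec.map (CommRingCat.ofHom (MvPolynomial.C : ℂ →+* MvPolynomial (Fin n) ℂ))

/-- The structure map of the affine line. -/
noncomputable def strL : Spec (CommRingCat.of (Polynomial ℂ)) ⟶ SpecC :=
  Spec.map (CommRingCat.ofHom (Polynomial.C : ℂ →+* Polynomial ℂ))

lemma coordA'_strL {n : ℕ} (i : Fin n) : coordA' i ≫ strL = strA n := by
  rw [coordA', strL, strA, ← Spec.map_comp]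
  congr 1
  ext c : 2
  simp

/-- The morphism to affine space given by coordinates. -/
noncomputable def toAn' {n : ℕ} {T : Scheme.{0}} (t : T ⟶ SpecC)
    (g : Fin n → (T ⟶ Spec (CommRingCat.of (Polynomial ℂ)))) :
    T ⟶ Spec (CommRingCat.of (MvPolynomial (Fin n) ℂ)) :=
  T.toSpecΓ ≫ Spec.map (CommRingCat.ofHom
    (MvPolynomial.eval₂Hom (pb t).hom (fun i => (pb (g i)).hom Polynomial.X)))

lemma toAn'_str {n : ℕ} {T : Scheme.{0}} (t : T ⟶ SpecC)
    (g : Fin n → (T ⟶ Spec (CommRingCat.of (Polynomial ℂ)))) :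
    toAn' t g ≫ strA n = t := by
  apply ext_of_pb
  rw [strA, pb_comp_map, toAn', pb_toSpecΓ_map]
  ext c
  simp

lemma toAn'_coordA' {n : ℕ} {T : Scheme.{0}} (t : T ⟶ SpecC)
    (g : Fin n → (T ⟶ Spec (CommRingCat.of (Polynomial ℂ)))) (i : Fin n)
    (h : g i ≫ strL = t) :
    toAn' t g ≫ coordA' i = g i := by
  apply ext_of_pb
  rw [coordA', pb_comp_map, toAn', pb_toSpecΓ_map]
  have h : pb t = CommRingCat.ofHom Polynomial.C ≫ pb (g i) := by
    rw [← h, strL, pb_comp_map]
  have key : ((MvPolynomial.eval₂Hom (pb t).hom (fun i => (pb (g i)).hom Polynomial.X)).comp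
    (Polynomial.eval₂RingHom (MvPolynomial.C) (MvPolynomial.X i) :
      Polynomial ℂ →+* MvPolynomial (Fin n) ℂ)) = (pb (g i)).hom := by
    apply Polynomial.ringHom_ext
    · intro a
      simp [h]
    · simp
  ext1
  exact key

lemma An'_hom_ext {n : ℕ} {T : Scheme.{0}}
    {f g : T ⟶ Spec (CommRingCat.of (MvPolynomial (Fin n) ℂ))}
    (hs : f ≫ strA n = g ≫ strA n) (h : ∀ i, f ≫ coordA' i = g ≫ coordA' i) : f = g := by
  apply ext_of_pb
  have hC := congrArg pb hs
  rw [strA, pb_comp_map, pb_comp_map] at hC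
  ext1
  apply MvPolynomial.ringHom_ext
  · intro c
    exact congr($(hC).hom c)
  · intro i
    have := congrArg (fun t => (pb t).hom Polynomial.X) (h i)
    rw [coordA', pb_comp_map, pb_comp_map] at this
    simpa using this

end Affine

/-- The affine line over `ℂ`. -/
noncomputable def A1 : Over SpecC := Over.mk strL

/-- The affine `n`-space over `ℂ`. -/
noncomputable def An (n : ℕ) : Over SpecC := Over.mk (strA n)

instance (a : Fin 2) : IsIso (CommRingCat.ofHom (awayToPoly a)) :=
  (awayEquiv a).toCommRingCatIso.isIso_hom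

/-- The standard chart, as a morphism of schemes. -/
noncomputable def P1chart' (a : Fin 2) : Spec (CommRingCat.of (Polynomial ℂ)) ⟶ Proj gr :=
  Spec.map (CommRingCat.ofHom (awayToPoly a)) ≫
    Proj.awayι gr (MvPolynomial.X a) (X_mem a) one_pos

instance (a : Fin 2) : IsOpenImmersion (P1chart' a) := by
  delta P1chart'
  infer_instance

lemma opensRange_P1chart' (a : Fin 2) :
    (P1chart' a).opensRange = Proj.basicOpen gr (MvPolynomial.X a) := by
  delta P1chart'
  rw [Scheme.Hom.opensRange_comp_of_isIso]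
  exact Proj.opensRange_awayι gr (MvPolynomial.X a) (X_mem a) one_pos

/-- The standard chart `𝔸¹ ⟶ ℙ¹` with image `D₊(X_a)`. -/
noncomputable def P1chart (a : Fin 2) : A1 ⟶ P1 :=
  Over.homMk (P1chart' a) (by
    simp only [P1, A1, strL, Over.mk_left, Over.mk_hom, P1chart', Category.assoc,
      Proj.awayι_toSpecZero_assoc]
    rw [← Spec.map_comp, ← Spec.map_comp]
    congr 1
    ext c : 2
    simpa [constAway] using awayToPoly_const a c)

instance (a : Fin 2) : IsOpenImmersion (P1chart a).left :=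
  inferInstanceAs (IsOpenImmersion (P1chart' a))

lemma opensRange_P1chart (a : Fin 2) :
    (P1chart a).left.opensRange = Proj.basicOpen gr (MvPolynomial.X a) :=
  opensRange_P1chart' a

/-- The `i`-th coordinate `𝔸ⁿ ⟶ 𝔸¹`. -/
noncomputable def coordA {n : ℕ} (i : Fin n) : An n ⟶ A1 :=
  Over.homMk (coordA' i) (coordA'_strL i)

/-- The morphism to affine space given by coordinates. -/
noncomputable def toAn {n : ℕ} {T : Over SpecC} (g : Fin n → (T ⟶ A1)) : T ⟶ An n :=
  Over.homMk (toAn' T.hom (fun i => (g i).left)) (toAn'_str _ _)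

lemma toAn_coordA {n : ℕ} {T : Over SpecC} (g : Fin n → (T ⟶ A1)) (i : Fin n) :
    toAn g ≫ coordA i = g i := by
  ext1
  exact toAn'_coordA' _ _ _ (Over.w (g i))

lemma An_hom_ext {n : ℕ} {T : Over SpecC} {f g : T ⟶ An n}
    (h : ∀ i, f ≫ coordA i = g ≫ coordA i) : f = g := by
  ext1
  exact An'_hom_ext ((Over.w f).trans (Over.w g).symm)
    (fun i => congrArg (fun t => t.left) (h i))

/-- The chart `𝔸ⁿ ⟶ (ℙ¹)ⁿ`. -/
noncomputable def chart {n : ℕ} (ε : Fin n → Fin 2) : An n ⟶ Pn n :=
  Pi.lift (fun i => coordA i ≫ P1chart (ε i))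

@[reassoc (attr := simp)]
lemma chart_proj {n : ℕ} (ε : Fin n → Fin 2) (i : Fin n) :
    chart ε ≫ proj i = coordA i ≫ P1chart (ε i) :=
  Pi.lift_π _ _

/-- The open subset of `(ℙ¹)ⁿ` where `X_{ε i} ≠ 0` on the `i`-th factor. -/
noncomputable def chartOpen {n : ℕ} (ε : Fin n → Fin 2) : (Pn n).left.Opens :=
  ⨅ i, (proj i).left ⁻¹ᵁ (P1chart (ε i)).left.opensRange

lemma Pn_hom_ext {n : ℕ} {T : Over SpecC} {f g : T ⟶ Pn n}
    (h : ∀ i, f ≫ proj i = g ≫ proj i) : f = g :=
  Pi.hom_ext _ _ h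

lemma mem_chartOpen {n : ℕ} (ε : Fin n → Fin 2) (x : (Pn n).left) :
    x ∈ chartOpen ε ↔ ∀ i, (proj i).left x ∈ (P1chart (ε i)).left.opensRange := by
  simp only [chartOpen]
  rw [← SetLike.mem_coe, TopologicalSpace.Opens.coe_iInf]
  simp

lemma range_chart_subset {n : ℕ} (ε : Fin n → Fin 2) :
    Set.range (chart ε).left ⊆ (chartOpen ε : Set (Pn n).left) := by
  rintro _ ⟨x, rfl⟩
  rw [SetLike.mem_coe, mem_chartOpen]
  intro i
  have h := congrArg (fun t => t.left) (chart_proj ε i)
  simp only [Over.comp_left] at h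
  have h2 : (proj i).left ((chart ε).left x) = (P1chart (ε i)).left ((coordA i).left x) := by
    rw [← Scheme.Hom.comp_apply, h, Scheme.Hom.comp_apply]
  rw [h2]
  exact ⟨_, rfl⟩

/-- The open subscheme as an object over `Spec ℂ`. -/
noncomputable def chartScheme {n : ℕ} (ε : Fin n → Fin 2) : Over SpecC :=
  Over.mk ((chartOpen ε).ι ≫ (Pn n).hom)

/-- inclusion of the open subscheme. -/
noncomputable def chartι {n : ℕ} (ε : Fin n → Fin 2) : chartScheme ε ⟶ Pn n :=
  Over.homMk (chartOpen ε).ι rfl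

instance {n : ℕ} (ε : Fin n → Fin 2) : IsOpenImmersion (chartι ε).left :=
  inferInstanceAs (IsOpenImmersion (chartOpen ε).ι)

/-- the coordinates on the open subscheme -/
noncomputable def chartCoord {n : ℕ} (ε : Fin n → Fin 2) (i : Fin n) : chartScheme ε ⟶ A1 :=
  Over.homMk (IsOpenImmersion.lift (P1chart (ε i)).left ((chartι ε).left ≫ (proj i).left) (by
    rintro _ ⟨x, rfl⟩
    have := (mem_chartOpen ε x.1).1 x.2 i
    exact this)) (by
    rw [← Over.w (P1chart (ε i)), ← Category.assoc, IsOpenImmersion.lift_fac, Category.assoc,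
      Over.w, Over.w])

lemma chartCoord_fac {n : ℕ} (ε : Fin n → Fin 2) (i : Fin n) :
    chartCoord ε i ≫ P1chart (ε i) = chartι ε ≫ proj i := by
  ext1
  simp only [chartCoord, Over.comp_left, Over.homMk_left]
  exact IsOpenImmersion.lift_fac _ _ _

lemma toAn_chart {n : ℕ} (ε : Fin n → Fin 2) :
    toAn (chartCoord ε) ≫ chart ε = chartι ε := by
  apply Pn_hom_ext
  intro i
  rw [Category.assoc, chart_proj, ← Category.assoc, toAn_coordA, chartCoord_fac]

/-- the chart with restricted target -/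
noncomputable def chartRes {n : ℕ} (ε : Fin n → Fin 2) : An n ⟶ chartScheme ε :=
  Over.homMk (IsOpenImmersion.lift (chartι ε).left (chart ε).left (by
    have : Set.range (chartι ε).left = (chartOpen ε : Set (Pn n).left) :=
      Scheme.Opens.range_ι _
    rw [this]
    exact range_chart_subset ε)) (by
    rw [← Over.w (chartι ε), ← Category.assoc, IsOpenImmersion.lift_fac, Over.w])

lemma chartRes_ι {n : ℕ} (ε : Fin n → Fin 2) : chartRes ε ≫ chartι ε = chart ε := by
  ext1
  simp only [chartRes, Over.comp_left, Over.homMk_left]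
  exact IsOpenImmersion.lift_fac _ _ _

instance chart_mono {n : ℕ} (ε : Fin n → Fin 2) : Mono (chart ε) where
  right_cancellation g h e := by
    apply An_hom_ext
    intro i
    have : Mono (P1chart (ε i)) := Over.mono_of_mono_left _
    rw [← cancel_mono (P1chart (ε i)), Category.assoc, Category.assoc, ← chart_proj,
      ← Category.assoc, ← Category.assoc, e]

/-- the chart is an isomorphism to its image -/
noncomputable def chartIso {n : ℕ} (ε : Fin n → Fin 2) : An n ≅ chartScheme ε where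
  hom := chartRes ε
  inv := toAn (chartCoord ε)
  hom_inv_id := by
    rw [← cancel_mono (chart ε), Category.assoc, toAn_chart, chartRes_ι, Category.id_comp]
  inv_hom_id := by
    have : Mono (chartι ε) := Over.mono_of_mono_left _
    rw [← cancel_mono (chartι ε), Category.assoc, chartRes_ι, toAn_chart, Category.id_comp]

instance {n : ℕ} (ε : Fin n → Fin 2) : IsOpenImmersion (chart ε).left := by
  rw [← chartRes_ι ε, Over.comp_left]
  have : IsIso (chartRes ε) := (chartIso ε).isIso_hom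
  have : IsIso (chartRes ε).left := inferInstanceAs (IsIso ((Over.forget _).map (chartRes ε)))
  infer_instance

lemma opensRange_chart {n : ℕ} (ε : Fin n → Fin 2) :
    (chart ε).left.opensRange = chartOpen ε := by
  have h : (chart ε).left = (chartRes ε).left ≫ (chartι ε).left := by
    rw [← Over.comp_left, chartRes_ι ε]
  have : IsIso (chartRes ε) := (chartIso ε).isIso_hom
  have : IsIso (chartRes ε).left := inferInstanceAs (IsIso ((Over.forget _).map (chartRes ε)))
  have h3 : ∀ (g : (An n).left ⟶ (Pn n).left) [IsOpenImmersion g],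
      g = (chartRes ε).left ≫ (chartι ε).left → g.opensRange = chartOpen ε := by
    intro g _ hg
    subst hg
    rw [Scheme.Hom.opensRange_comp_of_isIso]
    exact Scheme.Opens.opensRange_ι _
  exact h3 _ h

lemma adjoin_X_eq_top : Algebra.adjoin (gr 0)
    (Set.range (fun a : Fin 2 => (MvPolynomial.X a : MvPolynomial (Fin 2) ℂ))) = ⊤ := by
  rw [eq_top_iff]
  rintro p -
  induction p using MvPolynomial.induction_on with
  | C a =>
    have : (MvPolynomial.C a : MvPolynomial (Fin 2) ℂ) =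
      algebraMap (gr 0) (MvPolynomial (Fin 2) ℂ) (algebraMap ℂ (gr 0) a) := rfl
    rw [this]
    exact Subalgebra.algebraMap_mem _ _
  | add p q hp hq => exact Subalgebra.add_mem _ hp hq
  | mul_X p i hp => exact Subalgebra.mul_mem _ hp (Algebra.subset_adjoin ⟨i, rfl⟩)

lemma exists_mem_basicOpen_X (y : Proj gr) :
    ∃ a : Fin 2, y ∈ Proj.basicOpen gr (MvPolynomial.X a) := by
  have hy : y ∈ (⊤ : (Proj gr).Opens) := trivial
  rw [← Proj.iSup_basicOpen_eq_top' gr
    (fun a : Fin 2 => (MvPolynomial.X a : MvPolynomial (Fin 2) ℂ))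
    (fun a => ⟨1, X_mem a⟩) adjoin_X_eq_top, TopologicalSpace.Opens.mem_iSup] at hy
  exact hy

lemma exists_mem_chartOpen {n : ℕ} (x : (Pn n).left) : ∃ ε : Fin n → Fin 2, x ∈ chartOpen ε := by
  choose a ha using exists_mem_basicOpen_X
  refine ⟨fun i => a ((proj i).left x), ?_⟩
  rw [mem_chartOpen]
  intro i
  rw [opensRange_P1chart]
  exact ha _

end Pool.Agent.Schubert
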