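import Mathlib

/-!
# Unions of Schubert varieties in `(ℙ¹)ⁿ` and flat degenerations

`(ℙ¹)ⁿ` is the full flag variety `G/B` of `G = SL₂ × ⋯ × SL₂` (`n` factors), where `B` consists of
the `n`-tuples of upper triangular matrices.  The Weyl group is `(ℤ/2)ⁿ`, whose elements are
identified with the subsets `F` of `{1, …, n}` (`F` is the set of factors where the element is the
nontrivial reflection).  The `B`-orbit of `F` consists of the points whose `i`-th coordinate lies in
the orbit `ℙ¹ ∖ {[1 : 0]}` for `i ∈ F` and is the fixed point `[1 : 0]` for `i ∉ F`, and the Schubert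
variety `X_F` is its closure.
-/

open CategoryTheory Limits AlgebraicGeometry TopologicalSpace

namespace Pool.Agent.Schubert

attribute [local instance] MvPolynomial.gradedAlgebra

/-- The base scheme `Spec ℂ`. -/
noncomputable abbrev SpecC : Scheme.{0} := Spec (CommRingCat.of ℂ)

/-- The standard grading of the homogeneous coordinate ring `ℂ[X₀, X₁]`. -/
noncomputable abbrev gr : ℕ → Submodule ℂ (MvPolynomial (Fin 2) ℂ) :=
  MvPolynomial.homogeneousSubmodule (Fin 2) ℂ

/-- The projective line over `ℂ`, as a scheme over `Spec ℂ`. -/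
noncomputable def P1 : Over SpecC :=
  Over.mk (Y := Proj gr) (Proj.toSpecZero gr ≫
    Spec.map (CommRingCat.ofHom (algebraMap ℂ (gr 0))))

/-- `(ℙ¹)ⁿ`, the `n`-fold product of `ℙ¹` over `Spec ℂ`. -/
noncomputable def Pn (n : ℕ) : Over SpecC := ∏ᶜ fun _ : Fin n => P1

/-- The `i`-th projection `(ℙ¹)ⁿ ⟶ ℙ¹`. -/
noncomputable def proj {n : ℕ} (i : Fin n) : Pn n ⟶ P1 := Pi.π (fun _ : Fin n => P1) i

/-- The open subset `X₁ ≠ 0` of `ℙ¹`; its complement is the `B`-fixed point `[1 : 0]`. -/
noncomputable def P1open : P1.left.Opens := Proj.basicOpen gr (MvPolynomial.X 1)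

/-- The Bruhat cell of `F` in `(ℙ¹)ⁿ`, that is, the orbit of the Borel subgroup `B` through the
`T`-fixed point corresponding to `F`: its points are those whose `i`-th coordinate is different from
the point `[1 : 0]` exactly for the indices `i ∈ F`. -/
def bruhatCell {n : ℕ} (F : Finset (Fin n)) : Set (Pn n).left :=
  {x | ∀ i, (proj i).left x ∈ P1open ↔ i ∈ F}

/-- The Schubert variety `X_F ⊆ (ℙ¹)ⁿ` as a set: the closure of the Bruhat cell of `F`. -/
def schubertSet {n : ℕ} (F : Finset (Fin n)) : Set (Pn n).left := closure (bruhatCell F)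

lemma isClosed_schubertSet {n : ℕ} (F : Finset (Fin n)) : IsClosed (schubertSet F) :=
  isClosed_closure

/-- The union of the Schubert varieties `X_F`, `F ∈ S`, as a closed subset of `(ℙ¹)ⁿ`. -/
noncomputable def schubertUnion {n : ℕ} (S : Finset (Finset (Fin n))) : Closeds (Pn n).left :=
  ⟨⋃ F ∈ S, schubertSet F, by
    exact S.finite_toSet.isClosed_biUnion fun F _ => isClosed_schubertSet F⟩

/-- `X_S`: the union of the Schubert varieties `X_F`, `F ∈ S`, with its reduced scheme
structure. -/
noncomputable def XS {n : ℕ} (S : Finset (Finset (Fin n))) : Over SpecC :=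
  Over.mk ((Scheme.IdealSheafData.vanishingIdeal (schubertUnion S)).subschemeι ≫ (Pn n).hom)

/-- The inclusion `X_S ⟶ (ℙ¹)ⁿ`. -/
noncomputable def XSι {n : ℕ} (S : Finset (Finset (Fin n))) : XS S ⟶ Pn n :=
  Over.homMk (Scheme.IdealSheafData.vanishingIdeal (schubertUnion S)).subschemeι rfl

/-- An irreducible curve over `ℂ` (reduced or not): an irreducible separated scheme of finite type
over `ℂ` of dimension one. -/
structure IsIrreducibleCurve (C : Over SpecC) : Prop where
  irreducible : IrreducibleSpace C.left
  separated : IsSeparated C.hom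
  locallyOfFiniteType : LocallyOfFiniteType C.hom
  quasiCompact : QuasiCompact C.hom
  dim : topologicalKrullDim C.left = 1

/-- `X ⟶ Y` (thought of as a closed subscheme of `Y`) deforms to an irreducible variety: there is a
flat family `W → C` of closed subschemes of `Y` over an irreducible curve `C` (that is, a closed
subscheme `W` of `Y × C` which is flat over `C`), with a `ℂ`-point `c` of `C` such that the fibre of
`W` over `c` is `X` (as a subscheme of `Y`) and such that the general fibre (the fibre over all
closed points in a nonempty open subset `U` of `C`) is reduced and irreducible. -/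
def DeformsToIrreducible {X Y : Over SpecC} (i : X ⟶ Y) : Prop :=
  ∃ (C W : Over SpecC) (j : W ⟶ Y) (f : W ⟶ C),
    IsIrreducibleCurve C ∧
    IsClosedImmersion (pullback.lift j.left f.left ((Over.w j).trans (Over.w f).symm) :
      W.left ⟶ pullback Y.hom C.hom) ∧
    Flat f.left ∧
    (∃ (c : Over.mk (𝟙 SpecC) ⟶ C) (e : X ⟶ W),
      IsPullback e.left X.hom f.left c.left ∧ e ≫ j = i) ∧
    (∃ U : C.left.Opens, (U : Set C.left).Nonempty ∧
      ∀ x ∈ U, IsClosed {x} → IsIntegral (f.left.fiber x))

/-- A local ring is Cohen–Macaulay if it is Noetherian and has a regular sequence whose length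
is its Krull dimension. -/
def IsCohenMacaulayLocalRing (R : Type*) [CommRing R] [IsLocalRing R] : Prop :=
  IsNoetherianRing R ∧ ∃ rs : List R, RingTheory.Sequence.IsRegular R rs ∧
    (rs.length : WithBot ℕ∞) = ringKrullDim R

/-- A scheme is Cohen–Macaulay if it is locally Noetherian and all its local rings are
Cohen–Macaulay. -/
def IsCohenMacaulayScheme (X : Scheme) : Prop :=
  IsLocallyNoetherian X ∧ ∀ x : X, IsCohenMacaulayLocalRing (X.presheaf.stalk x)

end Pool.Agent.Schubert
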