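import Pool.Agent.Schubert.Chart

open CategoryTheory Limits AlgebraicGeometry TopologicalSpace HomogeneousLocalization

namespace Pool.Agent.Schubert

attribute [local instance] MvPolynomial.gradedAlgebra

instance : Algebra.FiniteType (gr 0) (MvPolynomial (Fin 2) ℂ) := by
  refine ⟨⟨Finset.univ.image (fun a : Fin 2 => (MvPolynomial.X a : MvPolynomial (Fin 2) ℂ)), ?_⟩⟩
  simpa using adjoin_X_eq_top

lemma bijective_algebraMap_gr : Function.Bijective (algebraMap ℂ (gr 0)) := by
  constructor
  · intro a b h
    have h2 : (MvPolynomial.C a : MvPolynomial (Fin 2) ℂ) = MvPolynomial.C b :=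
      congrArg (fun x : gr 0 => (x : MvPolynomial (Fin 2) ℂ)) h
    exact MvPolynomial.C_injective _ _ h2
  · rintro ⟨p, hp⟩
    have hp' : p ∈ MvPolynomial.homogeneousSubmodule (Fin 2) ℂ 0 := hp
    rw [MvPolynomial.homogeneousSubmodule_zero, Submodule.mem_one] at hp'
    obtain ⟨c, hc⟩ := hp'
    exact ⟨c, Subtype.ext hc⟩

instance : IsIso (CommRingCat.ofHom (algebraMap ℂ (gr 0))) :=
  (RingEquiv.ofBijective _ bijective_algebraMap_gr).toCommRingCatIso.isIso_hom

instance isProper_P1 : IsProper P1.hom := by
  have : IsProper (Proj.toSpecZero gr ≫ Spec.map (CommRingCat.ofHom (algebraMap ℂ (gr 0)))) :=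
    inferInstance
  exact this

/-- The cover of `(ℙ¹)ⁿ` by the standard charts. -/
noncomputable def chartCover (n : ℕ) : (Pn n).left.AffineOpenCover where
  I₀ := Fin n → Fin 2
  X _ := CommRingCat.of (MvPolynomial (Fin n) ℂ)
  f ε := (chart ε).left
  idx x := (exists_mem_chartOpen x).choose
  covers x := by
    have h := (exists_mem_chartOpen x).choose_spec
    rw [← opensRange_chart] at h
    exact h
  map_prop ε := inferInstanceAs (IsOpenImmersion (chart ε).left)

lemma finiteType_C (n : ℕ) :
    (MvPolynomial.C : ℂ →+* MvPolynomial (Fin n) ℂ).FiniteType := by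
  rw [← MvPolynomial.algebraMap_eq, RingHom.finiteType_algebraMap]
  infer_instance

instance locallyOfFiniteType_Pn (n : ℕ) : LocallyOfFiniteType (Pn n).hom := by
  rw [IsZariskiLocalAtSource.iff_of_openCover (P := @LocallyOfFiniteType)
    (chartCover n).openCover]
  intro ε
  have h : (chart ε).left ≫ (Pn n).hom = strA n := Over.w (chart ε)
  have h2 : LocallyOfFiniteType (strA n) := by
    rw [strA, HasRingHomProperty.Spec_iff (P := @LocallyOfFiniteType)]
    exact finiteType_C n
  change LocallyOfFiniteType ((chart ε).left ≫ (Pn n).hom)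
  rw [h]
  exact h2

section Family

variable {n : ℕ} {C W : Over SpecC} (j : W ⟶ Pn n) (f : W ⟶ C)

/-- The embedding of the total space in the product. -/
noncomputable abbrev emb : W.left ⟶ pullback (Pn n).hom C.hom :=
  pullback.lift j.left f.left ((Over.w j).trans (Over.w f).symm)

lemma emb_snd : emb j f ≫ pullback.snd _ _ = f.left := pullback.lift_snd _ _ _

lemma emb_fst : emb j f ≫ pullback.fst _ _ = j.left := pullback.lift_fst _ _ _

lemma locallyOfFiniteType_f [IsClosedImmersion (emb j f)] : LocallyOfFiniteType f.left := by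
  rw [← emb_snd j f]
  infer_instance

lemma isLocallyNoetherian_of_locallyOfFiniteType (C : Over SpecC) [LocallyOfFiniteType C.hom] :
    IsLocallyNoetherian C.left := by
  have : IsLocallyNoetherian SpecC := inferInstance
  exact LocallyOfFiniteType.isLocallyNoetherian C.hom

lemma isOpenMap_f [LocallyOfFiniteType C.hom] [IsClosedImmersion (emb j f)] [Flat f.left] :
    IsOpenMap f.left := by
  have := isLocallyNoetherian_of_locallyOfFiniteType C
  have := locallyOfFiniteType_f j f
  have : LocallyOfFinitePresentation f.left :=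
    LocallyOfFinitePresentation.iff_locallyOfFiniteType.2 inferInstance
  exact f.left.isOpenMap

lemma jacobsonSpace_of_locallyOfFiniteType (C : Over SpecC) [LocallyOfFiniteType C.hom] :
    JacobsonSpace C.left := by
  have : JacobsonSpace SpecC := inferInstance
  exact LocallyOfFiniteType.jacobsonSpace C.hom

end Family

end Pool.Agent.Schubert
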