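import Pool.Agent.Schubert.Irred
import Pool.Agent.Schubert.AlgLemmas
import Pool.Agent.Schubert.Cells

open CategoryTheory Limits AlgebraicGeometry TopologicalSpace HomogeneousLocalization

namespace Pool.Agent.Schubert

attribute [local instance] MvPolynomial.gradedAlgebra

lemma vanishingIdeal_le_ker {T Y : Scheme.{0}} [IsReduced T] (g : T ⟶ Y) (Z : Closeds Y)
    (h : Set.range g ⊆ Z) : Scheme.IdealSheafData.vanishingIdeal Z ≤ g.ker := by
  rw [← Scheme.IdealSheafData.map_bot, ← Scheme.nilradical_eq_bot (X := T),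
    ← Scheme.IdealSheafData.vanishingIdeal_top, Scheme.IdealSheafData.map_vanishingIdeal]
  apply Scheme.IdealSheafData.vanishingIdeal_antimono
  rw [Closeds.closure_le]
  simpa using h

/-- A morphism from a reduced scheme with image in a closed subset lifts to the reduced closed
subscheme. -/
lemma exists_lift_XS {n : ℕ} (S : Finset (Finset (Fin n))) {T : Scheme.{0}} [IsReduced T]
    (g : T ⟶ (Pn n).left) (h : Set.range g ⊆ (schubertUnion S : Set (Pn n).left)) :
    ∃ u : T ⟶ (XS S).left, u ≫ (XSι S).left = g := by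
  have hc : IsClosedImmersion (XSι S).left :=
    inferInstanceAs (IsClosedImmersion
      (Scheme.IdealSheafData.vanishingIdeal (schubertUnion S)).subschemeι)
  have hk : (XSι S).left.ker ≤ g.ker := by
    refine le_trans (le_of_eq ?_) (vanishingIdeal_le_ker g (schubertUnion S) h)
    exact Scheme.IdealSheafData.ker_subschemeι _
  exact ⟨IsClosedImmersion.lift (XSι S).left g hk, IsClosedImmersion.lift_fac _ _ _⟩

section TestPoint

variable {n : ℕ} (F : Finset (Fin n))

/-- The function field of affine space. -/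
abbrev KF (n : ℕ) := FractionRing (MvPolynomial (Fin n) ℂ)

/-- The coordinates of the generic point of the face `F`. -/
noncomputable def θ : MvPolynomial (Fin n) ℂ →+* KF n :=
  (algebraMap (MvPolynomial (Fin n) ℂ) (KF n)).comp
    (MvPolynomial.aeval (fun i => if i ∈ F then MvPolynomial.X i else 0) :
      MvPolynomial (Fin n) ℂ →ₐ[ℂ] MvPolynomial (Fin n) ℂ).toRingHom

lemma θ_X (i : Fin n) : θ F (MvPolynomial.X i) =
    if i ∈ F then algebraMap (MvPolynomial (Fin n) ℂ) (KF n) (MvPolynomial.X i) else 0 := by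
  simp [θ]
  split_ifs <;> simp

lemma θ_C (a : ℂ) : θ F (MvPolynomial.C a) = algebraMap ℂ (KF n) a := by
  simp [θ]
  rfl

/-- The generic point of the Schubert variety of `F` (as a point with values in a field). -/
noncomputable def testPt : Spec (CommRingCat.of (KF n)) ⟶ (Pn n).left :=
  Spec.map (CommRingCat.ofHom (θ F)) ≫ cn (fun _ => 0)

/-- the `i`-th coordinate of the test point. -/
noncomputable def θc (i : Fin n) : Polynomial ℂ →+* KF n :=
  (θ F).comp (Polynomial.eval₂RingHom (MvPolynomial.C) (MvPolynomial.X i))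

lemma θc_X (i : Fin n) : θc F i Polynomial.X = θ F (MvPolynomial.X i) := by
  simp [θc]

lemma testPt_proj (i : Fin n) : testPt F ≫ (proj i).left =
    Spec.map (CommRingCat.ofHom (θc F i)) ≫ c1 0 := by
  rw [testPt, Category.assoc, cn_proj, ← Category.assoc]
  congr 1
  rw [coordA', ← Spec.map_comp]
  rfl

lemma testPt_str : testPt F ≫ (Pn n).hom =
    Spec.map (CommRingCat.ofHom (algebraMap ℂ (KF n))) := by
  rw [testPt, Category.assoc, cn_hom, strA, ← Spec.map_comp]
  congr 1
  ext a
  exact θ_C F a

lemma testPt_range (S : Finset (Finset (Fin n))) (hF : ∃ F' ∈ S, F ⊆ F') :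
    Set.range (testPt F) ⊆ (schubertUnion S : Set (Pn n).left) := by
  obtain ⟨F', hF', hsub⟩ := hF
  rintro _ ⟨x, rfl⟩
  change testPt F x ∈ schubertUnion S
  rw [mem_schubertUnion]
  refine ⟨F', hF', ?_⟩
  intro i hi
  have hi' : i ∉ F := fun h => hi (hsub h)
  rw [← Scheme.Hom.comp_apply, testPt_proj, Scheme.Hom.comp_apply, c1_zero_mem_iff, not_not]
  change θc F i Polynomial.X ∈ x.asIdeal
  rw [θc_X, θ_X, if_neg hi']
  exact Ideal.zero_mem _

lemma algebraicIndependent_θ : AlgebraicIndependent ℂ
    (fun i : {i // i ∈ F} => θ F (MvPolynomial.X i.1)) := by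
  have h1 : AlgebraicIndependent ℂ
      (fun i : Fin n => algebraMap (MvPolynomial (Fin n) ℂ) (KF n) (MvPolynomial.X i)) := by
    have h0 := MvPolynomial.algebraicIndependent_X (Fin n) ℂ
    have h2 := h0.map' (f := Algebra.algHom ℂ (MvPolynomial (Fin n) ℂ) (KF n))
      (IsFractionRing.injective (MvPolynomial (Fin n) ℂ) (KF n))
    exact h2
  have h3 := h1.comp (fun i : {i // i ∈ F} => i.1) Subtype.val_injective
  convert h3 using 1
  funext i
  simp [θ_X, i.2]

end TestPoint

section Indep

lemma range_fromSpecStalk_subset {W Y Z : Scheme.{0}} (p : W) (g : W ⟶ Y) (i : Z ⟶ Y)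
    [IsOpenImmersion i] (h : g p ∈ i.opensRange) :
    Set.range (W.fromSpecStalk p ≫ g) ⊆ Set.range i := by
  rintro _ ⟨y, rfl⟩
  have h1 : W.fromSpecStalk p y ⤳ p := by
    have : W.fromSpecStalk p y ∈ Set.range (W.fromSpecStalk p) := ⟨y, rfl⟩
    rw [Scheme.range_fromSpecStalk] at this
    exact this
  have h2 : g (W.fromSpecStalk p y) ⤳ g p := h1.map g.continuous
  rw [Scheme.Hom.comp_apply]
  exact h2.mem_open i.opensRange.2 h

lemma algInd_of_mem {n : ℕ} {S : Finset (Finset (Fin n))} {C W : Over SpecC} (j : W ⟶ Pn n)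
    (f : W ⟶ C) [Flat f.left] [IrreducibleSpace W.left] (cl : SpecC ⟶ C.left) (e : XS S ⟶ W)
    (he : e ≫ j = XSι S) (hef : e.left ≫ f.left = (XS S).hom ≫ cl)
    (ρ : C.left.presheaf.stalk (cl (IsLocalRing.closedPoint (CommRingCat.of ℂ))) ⟶
      W.left.residueField (genericPoint W.left))
    (hρ : Spec.map ρ ≫ C.left.fromSpecStalk _ =
      W.left.fromSpecResidueField (genericPoint W.left) ≫ f.left)
    (φ : Fin n → (CommRingCat.of (Polynomial ℂ) ⟶ W.left.residueField (genericPoint W.left)))
    (hφ : ∀ i, W.left.fromSpecResidueField (genericPoint W.left) ≫ (j ≫ proj i).left =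
      Spec.map (φ i) ≫ c1 0)
    (F : Finset (Fin n)) (hF : ∃ F' ∈ S, F ⊆ F') :
    AlgebraicIndependent ρ.hom.range (fun i : {i // i ∈ F} => (φ i).hom Polynomial.X) := by
  obtain ⟨u, hu⟩ := exists_lift_XS S (testPt F) (testPt_range F S hF)
  let v : Spec (CommRingCat.of (KF n)) ⟶ W.left := u ≫ e.left
  have hvj : v ≫ j.left = testPt F := by
    simp only [v, Category.assoc]
    rw [← Over.comp_left, he, hu]
  have huh : u ≫ (XS S).hom = Spec.map (CommRingCat.ofHom (algebraMap ℂ (KF n))) := by
    rw [← testPt_str F, ← hu, Category.assoc, Over.w]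
  have hvf : v ≫ f.left = Spec.map (CommRingCat.ofHom (algebraMap ℂ (KF n))) ≫ cl := by
    simp only [v, Category.assoc]
    rw [hef, ← Category.assoc, huh]
  set p : W.left := v (IsLocalRing.closedPoint (CommRingCat.of (KF n))) with hp
  have hξp : genericPoint W.left ⤳ p := (genericPoint_spec W.left).specializes (Set.mem_univ _)
  have hfp : f.left p = cl (IsLocalRing.closedPoint (CommRingCat.of ℂ)) := by
    rw [hp, ← Scheme.Hom.comp_apply, hvf, Scheme.Hom.comp_apply]
    congr 1
    exact Subsingleton.elim _ _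
  let β : W.left.presheaf.stalk p ⟶ CommRingCat.of (KF n) := Scheme.stalkClosedPointTo v
  have hβ : Spec.map β ≫ W.left.fromSpecStalk p = v := Scheme.Spec_stalkClosedPointTo_fromSpecStalk v
  let γ : W.left.presheaf.stalk p ⟶ W.left.residueField (genericPoint W.left) :=
    W.left.presheaf.stalkSpecializes hξp ≫ W.left.residue (genericPoint W.left)
  have hγ : Spec.map γ ≫ W.left.fromSpecStalk p = W.left.fromSpecResidueField (genericPoint W.left) := by
    simp only [γ, Spec.map_comp, Category.assoc, Scheme.SpecMap_stalkSpecializes_fromSpecStalk]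
    rfl
  obtain ⟨alg, hflat, halg⟩ :
      ∃ alg : C.left.presheaf.stalk (cl (IsLocalRing.closedPoint (CommRingCat.of ℂ))) ⟶
        W.left.presheaf.stalk p, alg.hom.Flat ∧
        Spec.map alg ≫ C.left.fromSpecStalk _ = W.left.fromSpecStalk p ≫ f.left := by
    refine ⟨C.left.presheaf.stalkSpecializes (specializes_of_eq hfp) ≫ f.left.stalkMap p, ?_, ?_⟩
    · have h1 : (C.left.presheaf.stalkSpecializes (specializes_of_eq hfp)).hom.Flat := by
        apply RingHom.Flat.of_bijective
        have : IsIso (C.left.presheaf.stalkSpecializes (specializes_of_eq hfp)) := by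
          refine ⟨C.left.presheaf.stalkSpecializes (specializes_of_eq hfp.symm), ?_, ?_⟩
          · simp
          · simp
        exact ConcreteCategory.bijective_of_isIso
          (C.left.presheaf.stalkSpecializes (specializes_of_eq hfp))
      have h2 : (f.left.stalkMap p).hom.Flat := Flat.stalkMap f.left p
      exact h1.comp h2
    · simp only [Spec.map_comp, Category.assoc, Scheme.SpecMap_stalkSpecializes_fromSpecStalk]
      exact Scheme.SpecMap_stalkMap_fromSpecStalk f.left
  -- the coordinates at `p`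
  have hgp : ∀ i, (j ≫ proj i).left p ∈ (c1 0).opensRange := by
    intro i
    have h1 : (j ≫ proj i).left p =
        c1 0 (Spec.map (CommRingCat.ofHom (θc F i)) (IsLocalRing.closedPoint (CommRingCat.of (KF n)))) := by
      rw [hp, ← Scheme.Hom.comp_apply, Over.comp_left, ← Category.assoc, hvj, testPt_proj,
        Scheme.Hom.comp_apply]
    rw [h1]
    exact ⟨_, rfl⟩
  have hsub : ∀ i, Set.range (W.left.fromSpecStalk p ≫ (j ≫ proj i).left) ⊆
      Set.range (c1 0) := fun i => range_fromSpecStalk_subset _ _ _ (hgp i)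
  let τ : ∀ i : Fin n, CommRingCat.of (Polynomial ℂ) ⟶ W.left.presheaf.stalk p :=
    fun i => Spec.preimage (IsOpenImmersion.lift (c1 0) _ (hsub i))
  have hτ : ∀ i, Spec.map (τ i) ≫ c1 0 = W.left.fromSpecStalk p ≫ (j ≫ proj i).left := by
    intro i
    rw [Spec.map_preimage, IsOpenImmersion.lift_fac]
  have hτβ : ∀ i, τ i ≫ β = CommRingCat.ofHom (θc F i) := by
    intro i
    apply Spec.map_injective
    rw [← cancel_mono (c1 0), Spec.map_comp, Category.assoc, hτ, ← Category.assoc, hβ,
      Over.comp_left, ← Category.assoc, hvj, testPt_proj]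
  have hτγ : ∀ i, τ i ≫ γ = φ i := by
    intro i
    apply Spec.map_injective
    rw [← cancel_mono (c1 0), Spec.map_comp, Category.assoc, hτ, ← Category.assoc, hγ, hφ]
  have hclβ : Spec.map (Scheme.stalkClosedPointTo cl) ≫ C.left.fromSpecStalk _ = cl :=
    Scheme.Spec_stalkClosedPointTo_fromSpecStalk cl
  have halgβ : alg ≫ β = Scheme.stalkClosedPointTo cl ≫
      CommRingCat.ofHom (algebraMap ℂ (KF n)) := by
    apply Spec.map_injective
    rw [← cancel_mono (C.left.fromSpecStalk _), Spec.map_comp, Spec.map_comp, Category.assoc,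
      halg, ← Category.assoc, hβ, hvf, Category.assoc, hclβ]
  have halgγ : alg ≫ γ = ρ := by
    apply Spec.map_injective
    rw [← cancel_mono (C.left.fromSpecStalk _), Spec.map_comp, Category.assoc,
      halg, ← Category.assoc, hγ, hρ]
  let _ : Algebra (C.left.presheaf.stalk (cl (IsLocalRing.closedPoint (CommRingCat.of ℂ))))
    (W.left.presheaf.stalk p) := alg.hom.toAlgebra
  have _ : Module.Flat (C.left.presheaf.stalk (cl (IsLocalRing.closedPoint (CommRingCat.of ℂ))))
    (W.left.presheaf.stalk p) := hflat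
  have hloc : ∀ r ∈ IsLocalRing.maximalIdeal
      (C.left.presheaf.stalk (cl (IsLocalRing.closedPoint (CommRingCat.of ℂ)))),
      (Scheme.stalkClosedPointTo cl).hom r = 0 := by
    intro r hr
    by_contra h
    have h1 : IsUnit ((Scheme.stalkClosedPointTo cl).hom r) := isUnit_iff_ne_zero.2 h
    exact (IsLocalRing.mem_maximalIdeal _).1 hr (isUnit_of_map_unit _ _ h1)
  have h1 : AlgebraicIndependent (C.left.presheaf.stalk (cl (IsLocalRing.closedPoint (CommRingCat.of ℂ))))
      (fun i : {i // i ∈ F} => (τ i.1).hom Polynomial.X) := by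
    refine algebraicIndependent_of_flat_local (k₀ := ℂ) (K := KF n)
      (Scheme.stalkClosedPointTo cl).hom hloc β.hom ?_ _ ?_
    · intro r
      exact congr($(halgβ).hom r)
    · have h2 : (fun i : {i // i ∈ F} => β.hom ((τ i.1).hom Polynomial.X)) =
          fun i : {i // i ∈ F} => θ F (MvPolynomial.X i.1) := by
        funext i
        rw [← θc_X]
        exact congr($(hτβ i.1).hom Polynomial.X)
      rw [h2]
      exact algebraicIndependent_θ F
  have h2 := algebraicIndependent_of_nil γ.hom (fun b hb => isNilpotent_of_residue_generic b hb)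
    ρ.hom (fun r => congr($(halgγ).hom r)) _ h1
  have h3 : (fun i : {i // i ∈ F} => γ.hom ((τ i.1).hom Polynomial.X)) =
      fun i : {i // i ∈ F} => (φ i.1).hom Polynomial.X := by
    funext i
    exact congr($(hτγ i.1).hom Polynomial.X)
  rw [h3] at h2
  exact h2

end Indep

end Pool.Agent.Schubert
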