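import Pool.Agent.Schubert.Finiteness

open CategoryTheory Limits AlgebraicGeometry TopologicalSpace HomogeneousLocalization

namespace Pool.Agent.Schubert

attribute [local instance] MvPolynomial.gradedAlgebra

lemma irreducibleSpace_of_fibres {X Y : Type*} [TopologicalSpace X] [TopologicalSpace Y]
    [PreirreducibleSpace Y] [JacobsonSpace Y] (f : X → Y) (ho : IsOpenMap f)
    (U : Set Y) (hU : IsOpen U) (hne : U.Nonempty)
    (h : ∀ y ∈ U, IsClosed {y} → IsIrreducible (f ⁻¹' {y})) : IrreducibleSpace X := by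
  have hclosed : ∀ V : Set Y, IsOpen V → V.Nonempty → ∃ y ∈ V, IsClosed {y} := by
    intro V hV hVne
    obtain ⟨y, hy, hyc⟩ := nonempty_inter_closedPoints hVne hV.isLocallyClosed
    exact ⟨y, hy, hyc⟩
  have hpre : PreirreducibleSpace X := by
    refine ⟨?_⟩
    intro V₁ V₂ hV₁ hV₂ h1 h2
    simp only [Set.univ_inter] at h1 h2 ⊢
    have o1 := ho V₁ hV₁
    have o2 := ho V₂ hV₂
    have n1 : (f '' V₁ ∩ f '' V₂).Nonempty :=
      nonempty_preirreducible_inter o1 o2 (h1.image f) (h2.image f)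
    have n2 : ((f '' V₁ ∩ f '' V₂) ∩ U).Nonempty :=
      nonempty_preirreducible_inter (o1.inter o2) hU n1 hne
    obtain ⟨y, ⟨⟨⟨x₁, hx₁, hy₁⟩, ⟨x₂, hx₂, hy₂⟩⟩, hyU⟩, hyc⟩ :=
      hclosed _ ((o1.inter o2).inter hU) n2
    obtain ⟨x, hx, hx'⟩ := (h y hyU hyc).isPreirreducible V₁ V₂ hV₁ hV₂
      ⟨x₁, hy₁, hx₁⟩ ⟨x₂, hy₂, hx₂⟩
    exact ⟨x, hx'⟩
  obtain ⟨y, hyU, hyc⟩ := hclosed U hU hne
  obtain ⟨x, -⟩ := (h y hyU hyc).nonempty
  exact { toPreirreducibleSpace := hpre, toNonempty := ⟨x⟩ }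

/-- The total space of a flat family with irreducible general fibre is irreducible. -/
lemma irreducibleSpace_total {n : ℕ} {C W : Over SpecC} (j : W ⟶ Pn n) (f : W ⟶ C)
    [LocallyOfFiniteType C.hom] [IrreducibleSpace C.left]
    [IsClosedImmersion (emb j f)] [Flat f.left]
    (U : C.left.Opens) (hne : (U : Set C.left).Nonempty)
    (h : ∀ x ∈ U, IsClosed {x} → IrreducibleSpace (f.left.fiber x)) :
    IrreducibleSpace W.left := by
  have := jacobsonSpace_of_locallyOfFiniteType C
  refine irreducibleSpace_of_fibres f.left (isOpenMap_f j f) U U.isOpen hne ?_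
  intro y hy hyc
  have := h y hy hyc
  rw [← f.left.range_fiberι, ← Set.image_univ]
  exact (IrreducibleSpace.isIrreducible_univ _).image _ (f.left.fiberι _).continuous.continuousOn

lemma isNilpotent_of_residue_generic {W : Scheme.{0}} [IrreducibleSpace W] {p : W}
    (b : W.presheaf.stalk p)
    (hb : W.residue (genericPoint W)
      (W.presheaf.stalkSpecializes ((genericPoint_spec W).specializes trivial) b) = 0) :
    IsNilpotent b := by
  obtain ⟨U, hpU, s, rfl⟩ := W.presheaf.exists_germ_eq b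
  obtain ⟨_, ⟨V, hV, rfl⟩, hpV, hVU⟩ :=
    W.isBasis_affineOpens.exists_subset_of_mem_open hpU U.2
  have hξV : genericPoint W ∈ V :=
    ((genericPoint_spec W).specializes (Set.mem_univ p)).mem_open V.2 hpV
  have hξU : genericPoint W ∈ U := hVU hξV
  let s' := W.presheaf.map (homOfLE (show V ≤ U from hVU)).op s
  have h1 : W.presheaf.germ V p hpV s' = W.presheaf.germ U p hpU s :=
    W.presheaf.germ_res_apply (homOfLE (show V ≤ U from hVU)) p hpV s
  rw [TopCat.Presheaf.germ_stalkSpecializes_apply] at hb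
  have h2 : W.presheaf.germ V _ hξV s' = W.presheaf.germ U _ hξU s :=
    W.presheaf.germ_res_apply (homOfLE (show V ≤ U from hVU)) _ hξV s
  rw [← h2] at hb
  have h3 : W.evaluation V _ hξV s' = 0 := hb
  rw [Scheme.evaluation_eq_zero_iff_notMem_basicOpen] at h3
  have h4 : W.basicOpen s' = ⊥ := by
    rw [eq_bot_iff]
    intro x hx
    exact (h3 (((genericPoint_spec W).specializes (Set.mem_univ x)).mem_open
      (W.basicOpen s').2 hx)).elim
  have h5 : IsNilpotent s' :=
    (Scheme.isNilpotent_iff_basicOpen_eq_bot_of_isCompact hV.isCompact s').2 h4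
  rw [← h1]
  exact h5.map _

end Pool.Agent.Schubert
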