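import Pool.Agent.Schubert.Valuative
import Pool.Agent.Schubert.CM

open CategoryTheory Limits AlgebraicGeometry TopologicalSpace HomogeneousLocalization

namespace Pool.Agent.Schubert

attribute [local instance] MvPolynomial.gradedAlgebra

lemma isReduced_subscheme_vanishingIdeal {X : Scheme.{0}} (Z : Closeds X) :
    IsReduced (Scheme.IdealSheafData.vanishingIdeal Z).subscheme := by
  refine @IsReduced.of_openCover _
    (Scheme.IdealSheafData.vanishingIdeal Z).subschemeCover.openCover ?_
  intro U
  change IsReduced (Spec (CommRingCat.of (Γ(X, U.1) ⧸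
    (Scheme.IdealSheafData.vanishingIdeal Z).ideal U)))
  rw [affine_isReduced_iff]
  change _root_.IsReduced (Γ(X, U.1) ⧸ (Scheme.IdealSheafData.vanishingIdeal Z).ideal U)
  rw [← Ideal.isRadical_iff_quotient_reduced]
  change (PrimeSpectrum.vanishingIdeal _).IsRadical
  exact PrimeSpectrum.isRadical_vanishingIdeal _

instance isReduced_XS {n : ℕ} (S : Finset (Finset (Fin n))) : IsReduced (XS S).left :=
  isReduced_subscheme_vanishingIdeal (schubertUnion S)

lemma range_XSι {n : ℕ} (S : Finset (Finset (Fin n))) :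
    Set.range (XSι S).left = (schubertUnion S : Set (Pn n).left) := by
  have h2 := Scheme.IdealSheafData.range_subschemeι
    (Scheme.IdealSheafData.vanishingIdeal (schubertUnion S))
  rw [Scheme.IdealSheafData.coe_support_vanishingIdeal] at h2
  exact h2

instance isClosedImmersion_XSι {n : ℕ} (S : Finset (Finset (Fin n))) :
    IsClosedImmersion (XSι S).left :=
  inferInstanceAs (IsClosedImmersion
    (Scheme.IdealSheafData.vanishingIdeal (schubertUnion S)).subschemeι)

/-- The intersection of the union of Schubert varieties with a standard chart. -/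
def chartSet {n : ℕ} (S : Finset (Finset (Fin n))) (ε : Fin n → Fin 2) :
    Set (PrimeSpectrum (MvPolynomial (Fin n) ℂ)) :=
  {q | ∃ F ∈ S, ∀ i ∉ F, ε i = 0 ∧ MvPolynomial.X i ∈ q.asIdeal}

lemma cn_mem_iff {n : ℕ} (S : Finset (Finset (Fin n))) (ε : Fin n → Fin 2)
    (y : Spec (CommRingCat.of (MvPolynomial (Fin n) ℂ))) :
    cn ε y ∈ schubertUnion S ↔ (show PrimeSpectrum (MvPolynomial (Fin n) ℂ) from y) ∈
      chartSet S ε := by
  rw [mem_schubertUnion]
  have key := cn_not_mem_iff ε y
  constructor
  · rintro ⟨F, hF, h⟩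
    exact ⟨F, hF, fun i hi => (key i).1 (h i hi)⟩
  · rintro ⟨F, hF, h⟩
    exact ⟨F, hF, fun i hi => (key i).2 (h i hi)⟩

/-- The local rings of `X_S` are localizations of the coordinate rings of its intersections
with the standard charts. -/
lemma exists_localization {n : ℕ} (S : Finset (Finset (Fin n))) (x : (XS S).left)
    (ε : Fin n → Fin 2) (hx : (XSι S).left x ∈ (cn ε).opensRange) :
    ∃ (I : Ideal (MvPolynomial (Fin n) ℂ)) (q : Ideal (MvPolynomial (Fin n) ℂ ⧸ I))
      (_ : q.IsPrime), I = PrimeSpectrum.vanishingIdeal (chartSet S ε) ∧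
      Nonempty (Localization.AtPrime q ≃+* (XS S).left.presheaf.stalk x) := by
  obtain ⟨y, hy⟩ := hx
  obtain ⟨z, hz1, hz2⟩ := Scheme.Pullback.exists_preimage_pullback
    (f := (XSι S).left) (g := cn ε) x y hy.symm
  have hcl : IsClosedImmersion (pullback.snd (XSι S).left (cn ε)) := inferInstance
  obtain ⟨I, e, he⟩ := IsClosedImmersion.Spec_iff.1 hcl
  have hred : IsReduced (pullback (XSι S).left (cn ε)) :=
    isReduced_of_isOpenImmersion (pullback.fst (XSι S).left (cn ε))
  have hred2 : IsReduced (Spec (CommRingCat.of (MvPolynomial (Fin n) ℂ ⧸ I))) :=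
    isReduced_of_isOpenImmersion e.inv
  rw [affine_isReduced_iff] at hred2
  have hrad : I.IsRadical := (Ideal.isRadical_iff_quotient_reduced I).2 hred2
  have hI : I = PrimeSpectrum.vanishingIdeal (chartSet S ε) := by
    have h1 : Set.range (pullback.snd (XSι S).left (cn ε)) = chartSet S ε := by
      rw [Scheme.Pullback.range_snd, range_XSι]
      ext y
      exact cn_mem_iff S ε y
    have h2 : Set.range (pullback.snd (XSι S).left (cn ε)) = PrimeSpectrum.zeroLocus I := by
      rw [he]
      have h3 : Set.range (e.hom ≫ Spec.map (CommRingCat.ofHom (Ideal.Quotient.mk I))) =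
          Set.range (Spec.map (CommRingCat.ofHom (Ideal.Quotient.mk I))) := by
        ext w
        constructor
        · rintro ⟨v, rfl⟩
          exact ⟨e.hom v, by simp⟩
        · rintro ⟨v, rfl⟩
          exact ⟨e.inv v, by simp [← Scheme.Hom.comp_apply]⟩
      rw [h3]
      have h4 := range_comap_of_surjective _ (Ideal.Quotient.mk I)
        Ideal.Quotient.mk_surjective
      rw [Ideal.mk_ker] at h4
      exact h4
    rw [← h1, h2, PrimeSpectrum.vanishingIdeal_zeroLocus_eq_radical, hrad.radical]
  refine ⟨I, (e.hom z).asIdeal, (e.hom z).2, hI, ?_⟩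
  have e1 : (XS S).left.presheaf.stalk ((pullback.fst (XSι S).left (cn ε)) z) ≅
      (pullback (XSι S).left (cn ε)).presheaf.stalk z :=
    asIso ((pullback.fst (XSι S).left (cn ε)).stalkMap z)
  have e2 : (Spec (CommRingCat.of (MvPolynomial (Fin n) ℂ ⧸ I))).presheaf.stalk (e.hom z) ≅
      (pullback (XSι S).left (cn ε)).presheaf.stalk z := asIso (e.hom.stalkMap z)
  have e3 := (StructureSheaf.stalkIso (MvPolynomial (Fin n) ℂ ⧸ I) (e.hom z)).toRingEquiv
  subst hz1
  exact ⟨(e3.trans e2.commRingCatIsoToRingEquiv).trans e1.symm.commRingCatIsoToRingEquiv⟩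

end Pool.Agent.Schubert
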