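import Pool.Agent.Schubert.Necessary

open CategoryTheory Limits AlgebraicGeometry TopologicalSpace

namespace Pool.Agent.Schubert

/-- The matroid of algebraically independent subfamilies. -/
noncomputable def algMatroid {L : Type} [Field L] (A : Subring L) {n : ℕ} (x : Fin n → L) :
    Matroid (Fin n) := (AlgebraicIndependent.matroid A L).comap x

lemma algMatroid_indep_iff {L : Type} [Field L] (A : Subring L) {n : ℕ} (x : Fin n → L)
    (I : Set (Fin n)) : (algMatroid A x).Indep I ↔
      AlgebraicIndependent A (fun i : I => x i) := by
  rw [algMatroid, Matroid.comap_indep_iff, AlgebraicIndependent.matroid_indep_iff]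
  constructor
  · rintro ⟨h1, h2⟩
    exact (algebraicIndependent_image h2).2 h1
  · intro h
    have h2 : Set.InjOn x I := by
      intro a ha b hb hab
      have := h.injective (a₁ := ⟨a, ha⟩) (a₂ := ⟨b, hb⟩) hab
      exact congrArg Subtype.val this
    exact ⟨(algebraicIndependent_image h2).1 h, h2⟩

/-- The sets contained in members of `S` are the independent sets of a matroid, if `X_S` deforms
to an irreducible variety. -/
theorem exists_matroid_of_deforms {n : ℕ} {S : Finset (Finset (Fin n))}
    (h : DeformsToIrreducible (XSι S)) :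
    ∃ M : Matroid (Fin n), ∀ F : Finset (Fin n), (∃ F' ∈ S, F ⊆ F') ↔ M.Indep F := by
  obtain ⟨L, hL, hA, A, x, -, hx⟩ := exists_algInd_of_deforms h
  refine ⟨algMatroid A x, fun F => ?_⟩
  rw [hx, algMatroid_indep_iff]
  rfl

end Pool.Agent.Schubert
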