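import Pool.Agent.Schubert.Valuative

open CategoryTheory Limits AlgebraicGeometry TopologicalSpace HomogeneousLocalization

namespace Pool.Agent.Schubert

attribute [local instance] MvPolynomial.gradedAlgebra

/-- If `X_S` deforms to an irreducible variety, then the sets contained in members of `S` are the
algebraically independent subsets of a family of elements of a field. -/
theorem exists_algInd_of_deforms {n : ℕ} {S : Finset (Finset (Fin n))}
    (h : DeformsToIrreducible (XSι S)) :
    ∃ (L : Type) (_ : Field L) (_ : Algebra ℂ L) (A : Subring L) (x : Fin n → L),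
      (∀ z : ℂ, algebraMap ℂ L z ∈ A) ∧
      ∀ F : Finset (Fin n), (∃ F' ∈ S, F ⊆ F') ↔
        AlgebraicIndependent A (fun i : {i // i ∈ F} => x i) := by
  obtain ⟨C, W, j, f, hC, hcl, hflat, ⟨c, e, hpb, he⟩, ⟨U, hUne, hU⟩⟩ := h
  have := hC.irreducible
  have := hC.locallyOfFiniteType
  have hemb : IsClosedImmersion (emb j f) := hcl
  have hWirr : IrreducibleSpace W.left := by
    refine irreducibleSpace_total j f U hUne ?_
    intro x hx hxc
    have := hU x hx hxc
    infer_instance
  let cl : SpecC ⟶ C.left := c.left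
  have hpb' : IsPullback e.left (XS S).hom f.left cl := hpb
  have hopen := isOpenMap_f j f
  have hdom : f.left (genericPoint W.left) ⤳
      cl (IsLocalRing.closedPoint (CommRingCat.of ℂ)) := by
    have h1 : (Set.range f.left).Nonempty := ⟨_, ⟨genericPoint W.left, rfl⟩⟩
    have h2 : IsOpen (Set.range f.left) := hopen.isOpen_range
    have h3 : genericPoint C.left ∈ Set.range f.left :=
      ((genericPoint_spec C.left).mem_open_set_iff h2).2 (by simpa using h1)
    obtain ⟨w, hw⟩ := h3
    have h4 : f.left (genericPoint W.left) ⤳ f.left w :=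
      ((genericPoint_spec W.left).specializes (Set.mem_univ w)).map f.left.continuous
    rw [hw] at h4
    exact h4.trans ((genericPoint_spec C.left).specializes (Set.mem_univ _))
  obtain ⟨ρ, hρ⟩ : ∃ ρ : C.left.presheaf.stalk
      (cl (IsLocalRing.closedPoint (CommRingCat.of ℂ))) ⟶
      W.left.residueField (genericPoint W.left), Spec.map ρ ≫ C.left.fromSpecStalk _ =
      W.left.fromSpecResidueField (genericPoint W.left) ≫ f.left := by
    refine ⟨C.left.presheaf.stalkSpecializes hdom ≫ f.left.stalkMap _ ≫ W.left.residue _, ?_⟩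
    simp only [Spec.map_comp, Category.assoc, Scheme.SpecMap_stalkSpecializes_fromSpecStalk,
      Scheme.SpecMap_stalkMap_fromSpecStalk]
    rfl
  obtain ⟨σ, hσ⟩ : ∃ σ : CommRingCat.of ℂ ⟶ C.left.presheaf.stalk
      (cl (IsLocalRing.closedPoint (CommRingCat.of ℂ))),
      Spec.map σ = C.left.fromSpecStalk _ ≫ C.hom := ⟨Spec.preimage _, Spec.map_preimage _⟩
  -- `S` is nonempty
  have hSne : S.Nonempty := by
    let φ₀ : Fin n → (CommRingCat.of (Polynomial ℂ) ⟶
        W.left.residueField (genericPoint W.left)) := fun _ =>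
      CommRingCat.ofHom (Polynomial.evalRingHom (0 : ℂ)) ≫ σ ≫ ρ
    obtain ⟨F', hF', -⟩ := mem_of_algInd j f cl e he hpb' ρ hρ φ₀ ∅ (by simp) (by
      rw [algebraicIndependent_empty_type_iff]
      exact Subtype.val_injective)
    exact ⟨F', hF'⟩
  -- the coordinates
  have hcoord : ∀ i : Fin n, ∃ φ : CommRingCat.of (Polynomial ℂ) ⟶
      W.left.residueField (genericPoint W.left),
      W.left.fromSpecResidueField (genericPoint W.left) ≫ (j ≫ proj i).left =
      Spec.map φ ≫ c1 0 := by
    intro i
    obtain ⟨F', hF'⟩ := hSne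
    obtain ⟨u, hu⟩ := exists_lift_XS S (testPt ∅) (testPt_range ∅ S ⟨F', hF', by simp⟩)
    let p := e.left (u (IsLocalRing.closedPoint (CommRingCat.of (KF n))))
    have hp : (j ≫ proj i).left p ∈ (c1 0).opensRange := by
      have h1 : (j ≫ proj i).left p = c1 0 (Spec.map (CommRingCat.ofHom (θc ∅ i))
          (IsLocalRing.closedPoint (CommRingCat.of (KF n)))) := by
        rw [← Scheme.Hom.comp_apply (Spec.map _), ← testPt_proj, ← hu, ← he]
        rfl
      rw [h1]
      exact ⟨_, rfl⟩
    have hsub : Set.range (W.left.fromSpecResidueField (genericPoint W.left) ≫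
        (j ≫ proj i).left) ⊆ Set.range (c1 0) := by
      rintro _ ⟨y, rfl⟩
      rw [Scheme.Hom.comp_apply, Scheme.fromSpecResidueField_apply]
      have h1 : (j ≫ proj i).left (genericPoint W.left) ⤳ (j ≫ proj i).left p :=
        ((genericPoint_spec W.left).specializes (Set.mem_univ p)).map
          (j ≫ proj i).left.continuous
      exact h1.mem_open (c1 0).opensRange.2 hp
    refine ⟨Spec.preimage (IsOpenImmersion.lift (c1 0) _ hsub), ?_⟩
    rw [Spec.map_preimage, IsOpenImmersion.lift_fac]
  choose φ hφ using hcoord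
  refine ⟨W.left.residueField (genericPoint W.left), inferInstance, (σ ≫ ρ).hom.toAlgebra,
    ρ.hom.range, fun i => (φ i).hom Polynomial.X, fun z => ⟨σ.hom z, rfl⟩, fun F => ⟨?_, ?_⟩⟩
  · intro hF
    exact algInd_of_mem j f cl e he hpb'.w ρ hρ φ hφ F hF
  · intro hF
    exact mem_of_algInd j f cl e he hpb' ρ hρ φ F (fun i _ => hφ i) hF

end Pool.Agent.Schubert
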