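import Pool.Agent.Schubert.Defs

open CategoryTheory Limits AlgebraicGeometry TopologicalSpace HomogeneousLocalization

namespace Pool.Agent.Schubert

attribute [local instance] MvPolynomial.gradedAlgebra

/-- dehomogenization -/
noncomputable def dehom (a : Fin 2) : MvPolynomial (Fin 2) ℂ →ₐ[ℂ] Polynomial ℂ :=
  MvPolynomial.aeval (fun b => if b = a then 1 else Polynomial.X)

@[simp] lemma dehom_X_self (a : Fin 2) : dehom a (MvPolynomial.X a) = 1 := by
  simp [dehom]

lemma dehom_X (a b : Fin 2) : dehom a (MvPolynomial.X b) = if b = a then 1 else Polynomial.X := by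
  simp [dehom]

lemma X_mem (a : Fin 2) : (MvPolynomial.X a : MvPolynomial (Fin 2) ℂ) ∈ gr 1 :=
  MvPolynomial.isHomogeneous_X ℂ a

/-- map from the degree zero part of the localization to polynomials -/
noncomputable def awayToPoly (a : Fin 2) : Away gr (MvPolynomial.X a) →+* Polynomial ℂ :=
  (IsLocalization.Away.lift (S := Localization.Away (MvPolynomial.X a : MvPolynomial (Fin 2) ℂ))
    (MvPolynomial.X a) (g := (dehom a).toRingHom)
    (by simp)).comp (algebraMap _ (Localization.Away (MvPolynomial.X a)))

/-- the fraction `X_b / X_a`. -/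
noncomputable def frac (a b : Fin 2) : Away gr (MvPolynomial.X a) :=
  Away.mk gr (X_mem a) 1 (MvPolynomial.X b) (X_mem b)

/-- the constants. -/
noncomputable def constAway (a : Fin 2) : ℂ →+* Away gr (MvPolynomial.X a) :=
  (fromZeroRingHom gr _).comp (algebraMap ℂ (gr 0))

noncomputable def polyToAway (a : Fin 2) : Polynomial ℂ →+* Away gr (MvPolynomial.X a) :=
  Polynomial.eval₂RingHom (constAway a) (frac a (1 - a))

lemma awayToPoly_mk (a : Fin 2) (n : ℕ) (p : MvPolynomial (Fin 2) ℂ) (hp : p ∈ gr (n • 1)) :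
    awayToPoly a (Away.mk gr (X_mem a) n p hp) = dehom a p := by
  simp only [awayToPoly, RingHom.comp_apply, HomogeneousLocalization.algebraMap_apply,
    Away.val_mk]
  rw [Localization.mk_eq_mk']
  erw [IsLocalization.lift_mk'_spec]
  simp

lemma constAway_val (a : Fin 2) (c : ℂ) :
    (constAway a c).val = algebraMap (MvPolynomial (Fin 2) ℂ)
      (Localization.Away (MvPolynomial.X a : MvPolynomial (Fin 2) ℂ)) (MvPolynomial.C c) := by
  simp [constAway, fromZeroRingHom]
  rfl

lemma awayToPoly_const (a : Fin 2) (c : ℂ) :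
    awayToPoly a (constAway a c) = Polynomial.C c := by
  have : constAway a c =
    Away.mk gr (X_mem a) 0 (MvPolynomial.C c) (by simp) := by
    apply val_injective
    rw [constAway_val]
    simp [Away.val_mk]
    rfl
  rw [this, awayToPoly_mk]
  simp [dehom]

lemma polyToAway_dehom (a : Fin 2) (n : ℕ) (p : MvPolynomial (Fin 2) ℂ) (hp : p ∈ gr n) :
    (polyToAway a (dehom a p)).val *
      algebraMap (MvPolynomial (Fin 2) ℂ)
        (Localization.Away (MvPolynomial.X a : MvPolynomial (Fin 2) ℂ)) (MvPolynomial.X a) ^ n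
    = algebraMap (MvPolynomial (Fin 2) ℂ) (Localization.Away (MvPolynomial.X a : MvPolynomial (Fin 2) ℂ)) p := by
  set L := Localization.Away (MvPolynomial.X a : MvPolynomial (Fin 2) ℂ)
  set ψ : MvPolynomial (Fin 2) ℂ →+* L :=
    (algebraMap (Away gr (MvPolynomial.X a)) L).comp ((polyToAway a).comp (dehom a).toRingHom) with hψ
  set xa : L := algebraMap (MvPolynomial (Fin 2) ℂ) L (MvPolynomial.X a)
  change ψ p * xa ^ n = _
  have hX : ∀ b : Fin 2, ψ (MvPolynomial.X b) * xa = algebraMap (MvPolynomial (Fin 2) ℂ) L (MvPolynomial.X b) := by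
    intro b
    simp only [hψ, RingHom.comp_apply, AlgHom.toRingHom_eq_coe, RingHom.coe_coe]
    rw [dehom_X]
    split_ifs with h
    · subst h; simp [xa]
    · have hb : 1 - a = b := by omega
      simp only [polyToAway, Polynomial.coe_eval₂RingHom, Polynomial.eval₂_X, hb, frac]
      rw [show (algebraMap (Away gr (MvPolynomial.X a)) L) (Away.mk gr (X_mem a) 1 (MvPolynomial.X b)
        (X_mem b)) = (Away.mk gr (X_mem a) 1 (MvPolynomial.X b) (X_mem b)).val from rfl,
        Away.val_mk, Localization.mk_eq_mk']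
      have key := IsLocalization.mk'_spec L (MvPolynomial.X b : MvPolynomial (Fin 2) ℂ)
        (⟨MvPolynomial.X a ^ 1, ⟨1, rfl⟩⟩ :
          Submonoid.powers (MvPolynomial.X a : MvPolynomial (Fin 2) ℂ))
      have h2 : algebraMap (MvPolynomial (Fin 2) ℂ) L
        ((⟨MvPolynomial.X a ^ 1, ⟨1, rfl⟩⟩ :
          Submonoid.powers (MvPolynomial.X a : MvPolynomial (Fin 2) ℂ)) :
          MvPolynomial (Fin 2) ℂ) = xa := by
        simp only [pow_one, xa]
      rw [h2] at key
      exact key
  have hC : ∀ c, ψ (MvPolynomial.C c) = algebraMap (MvPolynomial (Fin 2) ℂ) L (MvPolynomial.C c) := by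
    intro c
    simp only [hψ, RingHom.comp_apply, AlgHom.toRingHom_eq_coe, RingHom.coe_coe]
    rw [← MvPolynomial.algebraMap_eq, AlgHom.commutes, Polynomial.algebraMap_eq, polyToAway,
      Polynomial.coe_eval₂RingHom, Polynomial.eval₂_C, HomogeneousLocalization.algebraMap_apply,
      constAway_val, MvPolynomial.algebraMap_eq]
  conv_lhs => rw [p.as_sum]
  conv_rhs => rw [p.as_sum]
  rw [map_sum, map_sum, Finset.sum_mul]
  refine Finset.sum_congr rfl fun d hd => ?_
  have hdeg : d 0 + d 1 = n := by
    have := MvPolynomial.IsHomogeneous.degree_eq_sum_deg_support hp hd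
    rw [this, Finset.sum_subset (Finset.subset_univ _)]
    · simp
    · intro i _ hi
      simpa using hi
  rw [MvPolynomial.monomial_eq, Finsupp.prod_fintype _ _ (by simp)]
  simp only [Fin.prod_univ_two, map_mul, map_pow, hC]
  rw [← hX 0, ← hX 1, ← hdeg]
  ring

lemma polyToAway_awayToPoly (a : Fin 2) (z : Away gr (MvPolynomial.X a)) :
    polyToAway a (awayToPoly a z) = z := by
  obtain ⟨n, p, hp, rfl⟩ := Away.mk_surjective gr (X_mem a) z
  rw [awayToPoly_mk]
  apply val_injective
  rw [Away.val_mk]
  have := polyToAway_dehom a n p (by simpa using hp)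
  rw [Localization.mk_eq_mk']
  symm
  rw [IsLocalization.mk'_eq_iff_eq_mul]
  simpa using this.symm

lemma awayToPoly_polyToAway (a : Fin 2) (p : Polynomial ℂ) :
    awayToPoly a (polyToAway a p) = p := by
  have : (awayToPoly a).comp (polyToAway a) = RingHom.id _ := by
    apply Polynomial.ringHom_ext
    · intro c
      simp [polyToAway, awayToPoly_const]
    · simp only [polyToAway, RingHom.comp_apply, Polynomial.coe_eval₂RingHom, Polynomial.eval₂_X,
        frac, awayToPoly_mk, dehom_X, RingHom.id_apply]
      rw [if_neg (by omega)]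
  exact congr($this p)

/-- The degree zero part of `ℂ[X₀,X₁][1/X_a]` is a polynomial ring. -/
noncomputable def awayEquiv (a : Fin 2) : Away gr (MvPolynomial.X a) ≃+* Polynomial ℂ where
  __ := awayToPoly a
  invFun := polyToAway a
  left_inv := polyToAway_awayToPoly a
  right_inv := awayToPoly_polyToAway a

end Pool.Agent.Schubert
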