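import Pool.Agent.Schubert.Local

open CategoryTheory Limits AlgebraicGeometry TopologicalSpace

namespace Pool.Agent.Schubert

/-- The set of facets `{0,1}`, `{1,2}`, `{2,3}` of a path with four vertices. -/
def pathS : Finset (Finset (Fin 4)) := {{0, 1}, {1, 2}, {2, 3}}

/-- coordinate ring of affine space of dimension four -/
abbrev A4 := MvPolynomial (Fin 4) ℂ

/-- coordinate ring of affine space of dimension two -/
abbrev A2 := MvPolynomial (Fin 2) ℂ

/-- The Noether normalization of the charts of `X_S`. -/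
noncomputable def sN : A2 →ₐ[ℂ] A4 :=
  MvPolynomial.aeval ![MvPolynomial.X 0 + MvPolynomial.X 2, MvPolynomial.X 1 + MvPolynomial.X 3]

/-- The restriction to the components. -/
noncomputable def Φ (k : Fin 3) : A4 →ₐ[ℂ] A2 :=
  MvPolynomial.aeval ((![![MvPolynomial.X 0, MvPolynomial.X 1, 0, 0],
    ![0, MvPolynomial.X 1, MvPolynomial.X 0, 0],
    ![0, 0, MvPolynomial.X 0, MvPolynomial.X 1]] : Fin 3 → Fin 4 → A2) k)

lemma Φ_sN (k : Fin 3) (p : A2) : Φ k (sN p) = p := by
  have h : (Φ k).comp sN = AlgHom.id ℂ A2 := by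
    apply MvPolynomial.algHom_ext
    intro i
    fin_cases k <;> fin_cases i <;> simp [Φ, sN]
  exact congr($h p)

/-- the `k`-th facet -/
def facet (k : Fin 3) : Finset (Fin 4) := (![{0, 1}, {1, 2}, {2, 3}] : Fin 3 → Finset (Fin 4)) k

lemma Φ_X_eq_zero (k : Fin 3) (i : Fin 4) (hi : i ∉ facet k) : Φ k (MvPolynomial.X i) = 0 := by
  revert hi
  fin_cases k <;> fin_cases i <;> simp [Φ, facet]

lemma facet_mem (k : Fin 3) : facet k ∈ pathS := by
  fin_cases k <;> simp [facet, pathS]

lemma mem_pathS (F : Finset (Fin 4)) : F ∈ pathS ↔ F = {0, 1} ∨ F = {1, 2} ∨ F = {2, 3} := by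
  simp [pathS]

lemma vanishingIdeal_le_ker_Φ (ε : Fin 4 → Fin 2) (k : Fin 3) (h : ∀ i ∉ facet k, ε i = 0) :
    ∀ f ∈ PrimeSpectrum.vanishingIdeal (chartSet pathS ε), Φ k f = 0 := by
  intro f hf
  rw [PrimeSpectrum.mem_vanishingIdeal] at hf
  have hp : (RingHom.ker (Φ k)).IsPrime := RingHom.ker_isPrime _
  have := hf ⟨RingHom.ker (Φ k), hp⟩ ⟨facet k, facet_mem k, fun i hi => ⟨h i hi, ?_⟩⟩
  · exact this
  · exact Φ_X_eq_zero k i hi

section

variable (I : Ideal A4)

/-- The algebra structure over the Noether normalization. -/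
noncomputable abbrev algN : Algebra A2 (A4 ⧸ I) := ((Ideal.Quotient.mk I).comp sN.toRingHom).toAlgebra

attribute [local instance] algN

/-- The restriction to a component on the quotient. -/
noncomputable def Ψ (k : Fin 3) (h : ∀ f ∈ I, Φ k f = 0) : (A4 ⧸ I) →ₗ[A2] A2 where
  toFun := Ideal.Quotient.lift I (Φ k).toRingHom h
  map_add' := map_add _
  map_smul' := by
    intro p r
    obtain ⟨f, rfl⟩ := Ideal.Quotient.mk_surjective r
    rw [Algebra.smul_def]
    change Ideal.Quotient.lift I (Φ k).toRingHom h (Ideal.Quotient.mk I (sN p) *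
      Ideal.Quotient.mk I f) = _
    rw [map_mul, Ideal.Quotient.lift_mk]
    change Φ k (sN p) * _ = _
    rw [Φ_sN]
    rfl

lemma Ψ_mk (k : Fin 3) (h : ∀ f ∈ I, Φ k f = 0) (f : A4) :
    Ψ I k h (Ideal.Quotient.mk I f) = Φ k f := rfl

/-- the coordinate functions -/
noncomputable def tt (i : Fin 4) : A4 ⧸ I := Ideal.Quotient.mk I (MvPolynomial.X i)

lemma smul0 (r : A4 ⧸ I) : (MvPolynomial.X 0 : A2) • r = (tt I 0 + tt I 2) * r := by
  rw [Algebra.smul_def]
  change Ideal.Quotient.mk I (sN (MvPolynomial.X 0)) * r = _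
  simp [sN, tt]

lemma smul1 (r : A4 ⧸ I) : (MvPolynomial.X 1 : A2) • r = (tt I 1 + tt I 3) * r := by
  rw [Algebra.smul_def]
  change Ideal.Quotient.mk I (sN (MvPolynomial.X 1)) * r = _
  simp [sN, tt]

lemma eq_top_of_mul_mem (M : Submodule A2 (A4 ⧸ I)) (h1 : (1 : A4 ⧸ I) ∈ M)
    (h2 : ∀ i, ∀ r ∈ M, tt I i * r ∈ M) : M = ⊤ := by
  rw [eq_top_iff]
  rintro r -
  obtain ⟨f, rfl⟩ := Ideal.Quotient.mk_surjective r
  induction f using MvPolynomial.induction_on with
  | C a =>
    have h3 : Ideal.Quotient.mk I (MvPolynomial.C a) = (MvPolynomial.C a : A2) • (1 : A4 ⧸ I) := by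
      rw [Algebra.smul_def, mul_one]
      change _ = Ideal.Quotient.mk I (sN (MvPolynomial.C a))
      simp [sN]
    rw [h3]
    exact M.smul_mem _ h1
  | add p q hp hq => 
    rw [map_add]
    exact M.add_mem hp hq
  | mul_X p i hp =>
    rw [map_mul, mul_comm]
    exact h2 i _ hp

lemma span_eq_top (h02 : tt I 0 * tt I 2 = 0) (h03 : tt I 0 * tt I 3 = 0)
    (h13 : tt I 1 * tt I 3 = 0) :
    Submodule.span A2 {1, tt I 2, tt I 3} = ⊤ := by
  set M := Submodule.span A2 {1, tt I 2, tt I 3} with hM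
  have m1 : (1 : A4 ⧸ I) ∈ M := Submodule.subset_span (by simp)
  have m2 : tt I 2 ∈ M := Submodule.subset_span (by simp)
  have m3 : tt I 3 ∈ M := Submodule.subset_span (by simp)
  apply eq_top_of_mul_mem I M m1
  intro i r hr
  rw [hM] at hr
  induction hr using Submodule.span_induction with
  | zero => rw [mul_zero]; exact M.zero_mem
  | add x y _ _ hx hy => rw [mul_add]; exact M.add_mem hx hy
  | smul a x _ hx => rw [mul_smul_comm]; exact M.smul_mem _ hx
  | mem x hx =>
    have e0 : tt I 0 = (MvPolynomial.X 0 : A2) • (1 : A4 ⧸ I) - tt I 2 := by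
      rw [smul0]; ring
    have e1 : tt I 1 = (MvPolynomial.X 1 : A2) • (1 : A4 ⧸ I) - tt I 3 := by
      rw [smul1]; ring
    have e22 : tt I 2 * tt I 2 = (MvPolynomial.X 0 : A2) • tt I 2 := by
      rw [smul0]; linear_combination -h02
    have e23 : tt I 2 * tt I 3 = (MvPolynomial.X 0 : A2) • tt I 3 := by
      rw [smul0]; linear_combination -h03
    have e33 : tt I 3 * tt I 3 = (MvPolynomial.X 1 : A2) • tt I 3 := by
      rw [smul1]; linear_combination -h13
    have e12 : tt I 1 * tt I 2 = (MvPolynomial.X 1 : A2) • tt I 2 -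
        (MvPolynomial.X 0 : A2) • tt I 3 := by
      rw [smul1, smul0]; linear_combination h03
    have m0 : tt I 0 ∈ M := by rw [e0]; exact M.sub_mem (M.smul_mem _ m1) m2
    have m1' : tt I 1 ∈ M := by rw [e1]; exact M.sub_mem (M.smul_mem _ m1) m3
    have m22 : tt I 2 * tt I 2 ∈ M := by rw [e22]; exact M.smul_mem _ m2
    have m23 : tt I 2 * tt I 3 ∈ M := by rw [e23]; exact M.smul_mem _ m3
    have m33 : tt I 3 * tt I 3 ∈ M := by rw [e33]; exact M.smul_mem _ m3
    have m12 : tt I 1 * tt I 2 ∈ M := by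
      rw [e12]; exact M.sub_mem (M.smul_mem _ m2) (M.smul_mem _ m3)
    have m02 : tt I 0 * tt I 2 ∈ M := by rw [h02]; exact M.zero_mem
    have m03 : tt I 0 * tt I 3 ∈ M := by rw [h03]; exact M.zero_mem
    have m13 : tt I 1 * tt I 3 ∈ M := by rw [h13]; exact M.zero_mem
    have m32 : tt I 3 * tt I 2 ∈ M := by rw [mul_comm]; exact m23
    simp only [Set.mem_insert_iff, Set.mem_singleton_iff] at hx
    rcases hx with rfl | rfl | rfl
    · rw [mul_one]
      fin_cases i <;> assumption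
    · fin_cases i <;> assumption
    · fin_cases i <;> assumption

end

end Pool.Agent.Schubert
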