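import Pool.Agent.Schubert.Path

open CategoryTheory Limits AlgebraicGeometry TopologicalSpace

namespace Pool.Agent.Schubert

section

variable (I : Ideal A4)

attribute [local instance] algN

lemma Ψ_one (k : Fin 3) (h : ∀ f ∈ I, Φ k f = 0) : Ψ I k h 1 = 1 := by
  have h1 := Ψ_mk I k h 1
  rw [map_one (Φ k)] at h1
  exact h1

lemma free_case3 (h02 : tt I 0 * tt I 2 = 0) (h03 : tt I 0 * tt I 3 = 0)
    (h13 : tt I 1 * tt I 3 = 0) (k0 : ∀ f ∈ I, Φ 0 f = 0) (k1 : ∀ f ∈ I, Φ 1 f = 0)
    (k2 : ∀ f ∈ I, Φ 2 f = 0) : Module.Free A2 (A4 ⧸ I) ∧ Module.Finite A2 (A4 ⧸ I) := by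
  let v : Fin 3 → A4 ⧸ I := ![1, tt I 2, tt I 3]
  have hsp : ⊤ ≤ Submodule.span A2 (Set.range v) := by
    have h1 : Set.range v = {1, tt I 2, tt I 3} := by
      simp only [v, Matrix.range_cons, Matrix.range_empty]
      ext x
      simp
      tauto
    rw [h1, span_eq_top I h02 h03 h13]
  have hli : LinearIndependent A2 v := by
    rw [Fintype.linearIndependent_iff]
    intro g hg
    rw [Fin.sum_univ_three] at hg
    have hg' : g 0 • Ideal.Quotient.mk I 1 + g 1 • Ideal.Quotient.mk I (MvPolynomial.X 2) +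
      g 2 • Ideal.Quotient.mk I (MvPolynomial.X 3) = 0 := hg
    have e0 := congrArg (Ψ I 0 k0) hg'
    have e1 := congrArg (Ψ I 1 k1) hg'
    have e2 := congrArg (Ψ I 2 k2) hg'
    simp only [map_add, map_smul, Ψ_mk, Ψ_one, map_zero, map_one] at e0 e1 e2
    simp only [Φ, MvPolynomial.aeval_X] at e0 e1 e2
    simp only [smul_eq_mul, mul_one] at e0 e1 e2
    simp at e0 e1 e2
    have hX0 : (MvPolynomial.X 0 : A2) ≠ 0 := MvPolynomial.X_ne_zero 0
    have hX1 : (MvPolynomial.X 1 : A2) ≠ 0 := MvPolynomial.X_ne_zero 1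
    rw [e0] at e1 e2
    have e1' : g 1 = 0 := by simpa [hX0] using e1
    rw [e1'] at e2
    have e2' : g 2 = 0 := by simpa [hX1] using e2
    intro i
    fin_cases i <;> assumption
  let b := Module.Basis.mk hli hsp
  exact ⟨Module.Free.of_basis b, Module.Finite.of_basis b⟩

lemma free_case2 (c : Fin 4) (k k' : Fin 3) (hsp : Submodule.span A2 {1, tt I c} = ⊤)
    (kk : ∀ f ∈ I, Φ k f = 0) (kk' : ∀ f ∈ I, Φ k' f = 0) (hc : Φ k (MvPolynomial.X c) = 0)
    (hc' : Φ k' (MvPolynomial.X c) ≠ 0) :
    Module.Free A2 (A4 ⧸ I) ∧ Module.Finite A2 (A4 ⧸ I) := by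
  let v : Fin 2 → A4 ⧸ I := ![1, tt I c]
  have hsp : ⊤ ≤ Submodule.span A2 (Set.range v) := by
    have h1 : Set.range v = {1, tt I c} := by
      simp only [v, Matrix.range_cons, Matrix.range_empty]
      ext x
      simp
      tauto
    rw [h1, hsp]
  have hli : LinearIndependent A2 v := by
    rw [Fintype.linearIndependent_iff]
    intro g hg
    rw [Fin.sum_univ_two] at hg
    have hg' : g 0 • Ideal.Quotient.mk I 1 + g 1 • Ideal.Quotient.mk I (MvPolynomial.X c) = 0 := hg
    have e0 := congrArg (Ψ I k kk) hg'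
    have e1 := congrArg (Ψ I k' kk') hg'
    simp only [map_add, map_smul, Ψ_mk, Ψ_one, map_zero, map_one, hc, smul_zero, add_zero] at e0 e1
    simp only [smul_eq_mul, mul_one] at e0 e1
    rw [e0, zero_add] at e1
    have e1' : g 1 = 0 := (mul_eq_zero.1 e1).resolve_right hc'
    intro i
    fin_cases i <;> assumption
  let b := Module.Basis.mk hli hsp
  exact ⟨Module.Free.of_basis b, Module.Finite.of_basis b⟩

lemma free_case1 (k : Fin 3) (hsp : Submodule.span A2 {(1 : A4 ⧸ I)} = ⊤)
    (kk : ∀ f ∈ I, Φ k f = 0) :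
    Module.Free A2 (A4 ⧸ I) ∧ Module.Finite A2 (A4 ⧸ I) := by
  let v : Fin 1 → A4 ⧸ I := ![1]
  have hsp : ⊤ ≤ Submodule.span A2 (Set.range v) := by
    have h1 : Set.range v = {1} := by
      simp only [v, Matrix.range_cons, Matrix.range_empty]
      ext x
      simp
    rw [h1, hsp]
  have hli : LinearIndependent A2 v := by
    rw [Fintype.linearIndependent_iff]
    intro g hg
    rw [Fin.sum_univ_one] at hg
    have hg' : g 0 • Ideal.Quotient.mk I 1 = 0 := hg
    have e0 := congrArg (Ψ I k kk) hg'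
    simp only [map_smul, Ψ_one, map_zero, map_one] at e0
    simp only [smul_eq_mul, mul_one] at e0
    intro i
    fin_cases i
    assumption
  let b := Module.Basis.mk hli hsp
  exact ⟨Module.Free.of_basis b, Module.Finite.of_basis b⟩

lemma tt_eq_zero {i : Fin 4} (h : MvPolynomial.X i ∈ I) : tt I i = 0 :=
  Ideal.Quotient.eq_zero_iff_mem.2 h

lemma tt_mul_eq_zero {i j : Fin 4} (h : MvPolynomial.X i * MvPolynomial.X j ∈ I) :
    tt I i * tt I j = 0 := by
  rw [tt, tt, ← map_mul]
  exact Ideal.Quotient.eq_zero_iff_mem.2 h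

lemma mem_I_iff (ε : Fin 4 → Fin 2) (f : A4) :
    f ∈ PrimeSpectrum.vanishingIdeal (chartSet pathS ε) ↔
      ∀ q : PrimeSpectrum A4, q ∈ chartSet pathS ε → f ∈ q.asIdeal := by
  rw [PrimeSpectrum.mem_vanishingIdeal]

lemma mem_chartSet_pathS (ε : Fin 4 → Fin 2) (p : PrimeSpectrum A4) :
    p ∈ chartSet pathS ε ↔
      (ε 2 = 0 ∧ MvPolynomial.X 2 ∈ p.asIdeal ∧ ε 3 = 0 ∧ MvPolynomial.X 3 ∈ p.asIdeal) ∨
      (ε 0 = 0 ∧ MvPolynomial.X 0 ∈ p.asIdeal ∧ ε 3 = 0 ∧ MvPolynomial.X 3 ∈ p.asIdeal) ∨
      (ε 0 = 0 ∧ MvPolynomial.X 0 ∈ p.asIdeal ∧ ε 1 = 0 ∧ MvPolynomial.X 1 ∈ p.asIdeal) := by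
  simp only [chartSet, Set.mem_ofPred_eq, mem_pathS]
  constructor
  · rintro ⟨F, rfl | rfl | rfl, h⟩
    · have h2 := h 2 (by decide)
      have h3 := h 3 (by decide)
      tauto
    · have h0 := h 0 (by decide)
      have h3 := h 3 (by decide)
      tauto
    · have h0 := h 0 (by decide)
      have h1 := h 1 (by decide)
      tauto
  · rintro (h | h | h)
    · refine ⟨{0, 1}, by simp, ?_⟩
      intro i hi
      fin_cases i
      · simp at hi
      · simp at hi
      · exact ⟨h.1, h.2.1⟩
      · exact ⟨h.2.2.1, h.2.2.2⟩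
    · refine ⟨{1, 2}, by simp, ?_⟩
      intro i hi
      fin_cases i
      · exact ⟨h.1, h.2.1⟩
      · simp at hi
      · simp at hi
      · exact ⟨h.2.2.1, h.2.2.2⟩
    · refine ⟨{2, 3}, by simp, ?_⟩
      intro i hi
      fin_cases i
      · exact ⟨h.1, h.2.1⟩
      · exact ⟨h.2.2.1, h.2.2.2⟩
      · simp at hi
      · simp at hi

lemma free_chart (ε : Fin 4 → Fin 2) (hI : I = PrimeSpectrum.vanishingIdeal (chartSet pathS ε)) :
    Module.Free A2 (A4 ⧸ I) ∧ Module.Finite A2 (A4 ⧸ I) := by
  have hmem : ∀ f : A4, f ∈ I ↔ ∀ q : PrimeSpectrum A4, q ∈ chartSet pathS ε → f ∈ q.asIdeal := by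
    intro f
    rw [hI, mem_I_iff]
  have hchart := mem_chartSet_pathS ε
  have h02 : tt I 0 * tt I 2 = 0 := by
    apply tt_mul_eq_zero
    rw [hmem]
    intro p hp
    rw [hchart] at hp
    rcases hp with h | h | h
    · exact p.asIdeal.mul_mem_left _ h.2.1
    · exact p.asIdeal.mul_mem_right _ h.2.1
    · exact p.asIdeal.mul_mem_right _ h.2.1
  have h03 : tt I 0 * tt I 3 = 0 := by
    apply tt_mul_eq_zero
    rw [hmem]
    intro p hp
    rw [hchart] at hp
    rcases hp with h | h | h
    · exact p.asIdeal.mul_mem_left _ h.2.2.2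
    · exact p.asIdeal.mul_mem_right _ h.2.1
    · exact p.asIdeal.mul_mem_right _ h.2.1
  have h13 : tt I 1 * tt I 3 = 0 := by
    apply tt_mul_eq_zero
    rw [hmem]
    intro p hp
    rw [hchart] at hp
    rcases hp with h | h | h
    · exact p.asIdeal.mul_mem_left _ h.2.2.2
    · exact p.asIdeal.mul_mem_left _ h.2.2.2
    · exact p.asIdeal.mul_mem_right _ h.2.2.2
  have hspan := span_eq_top I h02 h03 h13
  have hΦ : ∀ k, (∀ i ∉ facet k, ε i = 0) → ∀ f ∈ I, Φ k f = 0 := by
    intro k hk f hf
    rw [hI] at hf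
    exact vanishingIdeal_le_ker_Φ ε k hk f hf
  have hΦ0 : ε 2 = 0 → ε 3 = 0 → ∀ f ∈ I, Φ 0 f = 0 := by
    intro h2 h3
    apply hΦ
    intro i hi
    fin_cases i <;> first | assumption | simp [facet] at hi
  have hΦ1 : ε 0 = 0 → ε 3 = 0 → ∀ f ∈ I, Φ 1 f = 0 := by
    intro h2 h3
    apply hΦ
    intro i hi
    fin_cases i <;> first | assumption | simp [facet] at hi
  have hΦ2 : ε 0 = 0 → ε 1 = 0 → ∀ f ∈ I, Φ 2 f = 0 := by
    intro h2 h3
    apply hΦ
    intro i hi
    fin_cases i <;> first | assumption | simp [facet] at hi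
  have e2 : tt I 0 = 0 → tt I 2 = (MvPolynomial.X 0 : A2) • (1 : A4 ⧸ I) := by
    intro h0
    rw [smul0, h0]; ring
  have e3 : tt I 1 = 0 → tt I 3 = (MvPolynomial.X 1 : A2) • (1 : A4 ⧸ I) := by
    intro h0
    rw [smul1, h0]; ring
  have hle : ∀ M : Submodule A2 (A4 ⧸ I), 1 ∈ M → tt I 2 ∈ M → tt I 3 ∈ M → M = ⊤ := by
    intro M h1 h2 h3
    rw [eq_top_iff, ← hspan, Submodule.span_le]
    rintro x (rfl | rfl | rfl) <;> assumption
  have hone : ∀ (s : Set (A4 ⧸ I)), (1 : A4 ⧸ I) ∈ s → (1 : A4 ⧸ I) ∈ Submodule.span A2 s :=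
    fun s h => Submodule.subset_span h
  have htop : (∀ q : PrimeSpectrum A4, q ∉ chartSet pathS ε) →
      Module.Free A2 (A4 ⧸ I) ∧ Module.Finite A2 (A4 ⧸ I) := by
    intro h
    have hI' : I = ⊤ := by
      rw [Ideal.eq_top_iff_one, hmem]
      intro q hq
      exact (h q hq).elim
    have : Subsingleton (A4 ⧸ I) := Ideal.Quotient.subsingleton_iff.2 hI'
    exact ⟨inferInstance, inferInstance⟩
  by_cases hε0 : ε 0 = 0
  · by_cases hε3 : ε 3 = 0
    · by_cases hε1 : ε 1 = 0
      · by_cases hε2 : ε 2 = 0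
        · exact free_case3 I h02 h03 h13 (hΦ0 hε2 hε3) (hΦ1 hε0 hε3) (hΦ2 hε0 hε1)
        · have t0 : tt I 0 = 0 := by
            apply tt_eq_zero
            rw [hmem]
            intro p hp
            rw [hchart] at hp
            tauto
          refine free_case2 I 3 1 2 ?_ (hΦ1 hε0 hε3) (hΦ2 hε0 hε1) (by simp [Φ]) (by simp [Φ])
          apply hle
          · exact hone _ (by simp)
          · rw [e2 t0]
            exact Submodule.smul_mem _ _ (hone _ (by simp))
          · exact Submodule.subset_span (by simp)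
      · by_cases hε2 : ε 2 = 0
        · have t3 : tt I 3 = 0 := by
            apply tt_eq_zero
            rw [hmem]
            intro p hp
            rw [hchart] at hp
            tauto
          refine free_case2 I 2 0 1 ?_ (hΦ0 hε2 hε3) (hΦ1 hε0 hε3) (by simp [Φ]) (by simp [Φ])
          apply hle
          · exact hone _ (by simp)
          · exact Submodule.subset_span (by simp)
          · rw [t3]
            exact Submodule.zero_mem _
        · have t0 : tt I 0 = 0 := by
            apply tt_eq_zero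
            rw [hmem]
            intro p hp
            rw [hchart] at hp
            tauto
          have t3 : tt I 3 = 0 := by
            apply tt_eq_zero
            rw [hmem]
            intro p hp
            rw [hchart] at hp
            tauto
          refine free_case1 I 1 ?_ (hΦ1 hε0 hε3)
          apply hle
          · exact hone _ (by simp)
          · rw [e2 t0]
            exact Submodule.smul_mem _ _ (hone _ (by simp))
          · rw [t3]
            exact Submodule.zero_mem _
    · by_cases hε1 : ε 1 = 0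
      · have t0 : tt I 0 = 0 := by
          apply tt_eq_zero
          rw [hmem]
          intro p hp
          rw [hchart] at hp
          tauto
        have t1 : tt I 1 = 0 := by
          apply tt_eq_zero
          rw [hmem]
          intro p hp
          rw [hchart] at hp
          tauto
        refine free_case1 I 2 ?_ (hΦ2 hε0 hε1)
        apply hle
        · exact hone _ (by simp)
        · rw [e2 t0]
          exact Submodule.smul_mem _ _ (hone _ (by simp))
        · rw [e3 t1]
          exact Submodule.smul_mem _ _ (hone _ (by simp))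
      · apply htop
        intro q hq
        rw [hchart] at hq
        tauto
  · by_cases hε2 : ε 2 = 0
    · by_cases hε3 : ε 3 = 0
      · have t2 : tt I 2 = 0 := by
          apply tt_eq_zero
          rw [hmem]
          intro p hp
          rw [hchart] at hp
          tauto
        have t3 : tt I 3 = 0 := by
          apply tt_eq_zero
          rw [hmem]
          intro p hp
          rw [hchart] at hp
          tauto
        refine free_case1 I 0 ?_ (hΦ0 hε2 hε3)
        apply hle
        · exact hone _ (by simp)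
        · rw [t2]
          exact Submodule.zero_mem _
        · rw [t3]
          exact Submodule.zero_mem _
      · apply htop
        intro q hq
        rw [hchart] at hq
        tauto
    · apply htop
      intro q hq
      rw [hchart] at hq
      tauto

end

lemma ringKrullDim_A2 : ringKrullDim A2 ≤ 2 := by
  rw [MvPolynomial.ringKrullDim_of_isNoetherianRing, ringKrullDim_eq_zero_of_field]
  simp

lemma isCohenMacaulay_chart (ε : Fin 4 → Fin 2) (I : Ideal A4)
    (hI : I = PrimeSpectrum.vanishingIdeal (chartSet pathS ε))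
    (q : Ideal (A4 ⧸ I)) [hq : q.IsPrime] :
    IsCohenMacaulayLocalRing (Localization.AtPrime q) := by
  let _ := algN I
  have h := free_chart I ε hI
  have := h.1
  have := h.2
  exact isCohenMacaulayLocalRing_of_finite_flat (P := A2) ringKrullDim_A2 q

end Pool.Agent.Schubert
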