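import Pool.Agent.Schubert.PathCM
import Pool.Agent.Schubert.Matroid

open CategoryTheory Limits AlgebraicGeometry TopologicalSpace

namespace Pool.Agent.Schubert

lemma IsCohenMacaulayLocalRing.of_ringEquiv {R R' : Type*} [CommRing R] [IsLocalRing R]
    [CommRing R'] [IsLocalRing R'] (e : R ≃+* R') (h : IsCohenMacaulayLocalRing R) :
    IsCohenMacaulayLocalRing R' := by
  obtain ⟨hN, rs, h1, h2⟩ := h
  refine ⟨isNoetherianRing_of_ringEquiv R e, rs.map e, ?_, ?_⟩
  · refine (AddEquiv.isRegular_congr (e := e.toAddEquiv) (as := rs) (bs := rs.map e) ?_).1 h1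
    rw [List.forall₂_map_right_iff, List.forall₂_same]
    intro r _ x
    exact map_mul e r x
  · rw [List.length_map, h2]
    exact ringKrullDim_eq_of_ringEquiv e

theorem isCohenMacaulayScheme_path : IsCohenMacaulayScheme (XS pathS).left := by
  constructor
  · have h1 : LocallyOfFiniteType (XS pathS).hom := by
      have h2 : (XS pathS).hom = (XSι pathS).left ≫ (Pn 4).hom := (Over.w (XSι pathS)).symm
      rw [h2]
      infer_instance
    exact isLocallyNoetherian_of_locallyOfFiniteType (XS pathS)
  · intro x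
    obtain ⟨ε, hε⟩ := exists_mem_chartOpen ((XSι pathS).left x)
    rw [← opensRange_chart] at hε
    obtain ⟨I, q, hq, hI, ⟨e⟩⟩ := exists_localization pathS x ε hε
    exact (isCohenMacaulay_chart ε I hI q).of_ringEquiv e

theorem not_deformsToIrreducible_path : ¬ DeformsToIrreducible (XSι pathS) := by
  intro h
  obtain ⟨M, hM⟩ := exists_matroid_of_deforms h
  have h0 : M.Indep (({0} : Finset (Fin 4)) : Set (Fin 4)) :=
    (hM _).1 ⟨{0, 1}, by decide, by decide⟩
  have h23 : M.Indep (({2, 3} : Finset (Fin 4)) : Set (Fin 4)) :=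
    (hM _).1 ⟨{2, 3}, by decide, by decide⟩
  obtain ⟨e, he1, he2, he3⟩ := h0.augment_finset h23 (by decide)
  have h4 : M.Indep ((insert e {0} : Finset (Fin 4)) : Set (Fin 4)) := by
    simpa using he3
  obtain ⟨F', hF', hsub⟩ := (hM _).2 h4
  clear h4 he3 he2 h23 h0 hM h
  revert F' e
  decide

end Pool.Agent.Schubert
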