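import Pool.Agent.Schubert.Finiteness

open CategoryTheory Limits AlgebraicGeometry TopologicalSpace HomogeneousLocalization

namespace Pool.Agent.Schubert

attribute [local instance] MvPolynomial.gradedAlgebra

/-- The standard chart of `ℙ¹`. -/
noncomputable def c1 (a : Fin 2) : Spec (CommRingCat.of (Polynomial ℂ)) ⟶ P1.left := P1chart' a

/-- The standard chart of `(ℙ¹)ⁿ`. -/
noncomputable def cn {n : ℕ} (ε : Fin n → Fin 2) :
    Spec (CommRingCat.of (MvPolynomial (Fin n) ℂ)) ⟶ (Pn n).left := (chart ε).left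

instance (a : Fin 2) : IsOpenImmersion (c1 a) := inferInstanceAs (IsOpenImmersion (P1chart' a))

instance {n : ℕ} (ε : Fin n → Fin 2) : IsOpenImmersion (cn ε) :=
  inferInstanceAs (IsOpenImmersion (chart ε).left)

@[reassoc]
lemma cn_proj {n : ℕ} (ε : Fin n → Fin 2) (i : Fin n) :
    cn ε ≫ (proj i).left = coordA' i ≫ c1 (ε i) :=
  congrArg (fun t => t.left) (chart_proj ε i)

@[reassoc]
lemma cn_hom {n : ℕ} (ε : Fin n → Fin 2) : cn ε ≫ (Pn n).hom = strA n := Over.w (chart ε)

@[reassoc]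
lemma c1_hom (a : Fin 2) : c1 a ≫ P1.hom = strL := Over.w (P1chart a)

lemma opensRange_c1_one : (c1 1).opensRange = P1open := opensRange_P1chart' 1

lemma mem_opensRange_c1_zero (y : P1.left) (hy : y ∉ P1open) : y ∈ (c1 0).opensRange := by
  obtain ⟨a, ha⟩ := exists_mem_basicOpen_X y
  have h0 : (c1 0).opensRange = Proj.basicOpen gr (MvPolynomial.X 0) := opensRange_P1chart' 0
  rw [h0]
  fin_cases a
  · exact ha
  · exact (hy ha).elim

lemma c1_one_mem (x : Spec (CommRingCat.of (Polynomial ℂ))) : c1 1 x ∈ P1open := by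
  rw [← opensRange_c1_one]
  exact ⟨x, rfl⟩

/-- In the chart `X₀ ≠ 0`, the open subset `X₁ ≠ 0` is given by the nonvanishing of the
coordinate. -/
lemma P1chart'_preimage :
    P1chart' 0 ⁻¹ᵁ Proj.basicOpen gr (MvPolynomial.X 1) =
      PrimeSpectrum.basicOpen (Polynomial.X : Polynomial ℂ) := by
  rw [P1chart', Scheme.Hom.comp_preimage, Proj.awayι_preimage_basicOpen gr (X_mem 0) one_pos
    (X_mem 1) one_pos]
  have h1 : awayToPoly 0 (Away.isLocalizationElem (X_mem 0) (X_mem 1)) = Polynomial.X := by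
    have : Away.isLocalizationElem (X_mem 0) (X_mem 1) =
      Away.mk gr (X_mem 0) 1 (MvPolynomial.X 1) (X_mem 1) := by
      apply val_injective
      simp [Away.isLocalizationElem, Away.val_mk]
    rw [this, awayToPoly_mk, dehom_X]
    simp
  ext x
  change awayToPoly 0 _ ∉ x.asIdeal ↔ _ ∉ x.asIdeal
  rw [h1]

lemma c1_zero_mem_iff (x : Spec (CommRingCat.of (Polynomial ℂ))) :
    c1 0 x ∈ P1open ↔ (Polynomial.X : Polynomial ℂ) ∉ x.asIdeal := by
  have h : c1 0 x ∈ P1open ↔ x ∈ P1chart' 0 ⁻¹ᵁ Proj.basicOpen gr (MvPolynomial.X 1) := Iff.rfl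
  rw [h, P1chart'_preimage]
  rfl

end Pool.Agent.Schubert
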