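import Pool.Agent.Schubert.Indep

open CategoryTheory Limits AlgebraicGeometry TopologicalSpace HomogeneousLocalization

namespace Pool.Agent.Schubert

attribute [local instance] MvPolynomial.gradedAlgebra

lemma existence_of_universallyClosed {X Y : Scheme.{0}} (f : X ⟶ Y) [h : UniversallyClosed f] :
    ValuativeCriterion.Existence f := by
  rw [UniversallyClosed.eq_valuativeCriterion] at h
  exact h.1

lemma existence_Pn (n : ℕ) : ValuativeCriterion.Existence (Pn n).hom := by
  rintro ⟨R, K, i₁, i₂, ⟨w⟩⟩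
  have hP1 : ValuativeCriterion.Existence P1.hom := by
    have : IsProper P1.hom := isProper_P1
    exact existence_of_universallyClosed P1.hom
  have hlift : ∀ i : Fin n, ∃ l : Spec (CommRingCat.of R) ⟶ P1.left,
      Spec.map (CommRingCat.ofHom (algebraMap R K)) ≫ l = i₁ ≫ (proj i).left ∧
        l ≫ P1.hom = i₂ := by
    intro i
    have w' : (i₁ ≫ (proj i).left) ≫ P1.hom =
        Spec.map (CommRingCat.ofHom (algebraMap R K)) ≫ i₂ := by
      rw [← w, Category.assoc, Over.w]
    obtain ⟨l, h1, h2⟩ := (hP1 ⟨R, K, i₁ ≫ (proj i).left, i₂, ⟨w'⟩⟩).exists_lift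
    exact ⟨l, h1, h2⟩
  choose l hl1 hl2 using hlift
  let T : Over SpecC := Over.mk i₂
  let L : T ⟶ Pn n := Pi.lift (fun i => Over.homMk (l i) (hl2 i))
  refine ⟨⟨⟨L.left, ?_, Over.w L⟩⟩⟩
  let T' : Over SpecC := Over.mk (Spec.map (CommRingCat.ofHom (algebraMap R K)) ≫ i₂)
  let a : T' ⟶ T := Over.homMk (Spec.map (CommRingCat.ofHom (algebraMap R K))) rfl
  let b : T' ⟶ Pn n := Over.homMk i₁ w
  have h : a ≫ L = b := by
    apply Pn_hom_ext
    intro i
    have hL : L ≫ proj i = Over.homMk (l i) (hl2 i) := Pi.lift_π _ _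
    rw [Category.assoc, hL]
    ext1
    exact hl1 i
  exact congrArg (fun t => t.left) h

lemma existence_comp {X Y Z : Scheme.{0}} (f : X ⟶ Y) (g : Y ⟶ Z)
    (hf : ValuativeCriterion.Existence f) (hg : ValuativeCriterion.Existence g) :
    ValuativeCriterion.Existence (f ≫ g) := by
  rintro ⟨R, K, i₁, i₂, ⟨w⟩⟩
  have w' : (i₁ ≫ f) ≫ g = Spec.map (CommRingCat.ofHom (algebraMap R K)) ≫ i₂ := by
    rw [← w, Category.assoc]
  obtain ⟨l, h1, h2⟩ := (hg ⟨R, K, i₁ ≫ f, i₂, ⟨w'⟩⟩).exists_lift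
  obtain ⟨m, h3, h4⟩ := (hf ⟨R, K, i₁, l, ⟨h1.symm⟩⟩).exists_lift
  dsimp only at h1 h2 h3 h4
  refine ⟨⟨⟨m, h3, ?_⟩⟩⟩
  rw [← Category.assoc, h4, h2]

lemma existence_f {n : ℕ} {C W : Over SpecC} (j : W ⟶ Pn n) (f : W ⟶ C)
    [IsClosedImmersion (emb j f)] : ValuativeCriterion.Existence f.left := by
  rw [← emb_snd j f]
  apply existence_comp
  · exact existence_of_universallyClosed _
  · exact MorphismProperty.pullback_snd _ _ (existence_Pn n)

lemma XSι_mem {n : ℕ} (S : Finset (Finset (Fin n))) (z : (XS S).left) :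
    (XSι S).left z ∈ schubertUnion S := by
  have h1 : Set.range (XSι S).left = (schubertUnion S : Set (Pn n).left) := by
    have h2 := Scheme.IdealSheafData.range_subschemeι
      (Scheme.IdealSheafData.vanishingIdeal (schubertUnion S))
    rw [Scheme.IdealSheafData.coe_support_vanishingIdeal] at h2
    exact h2
  have h3 : (XSι S).left z ∈ Set.range (XSι S).left := ⟨z, rfl⟩
  rw [h1] at h3
  exact h3

lemma mem_of_algInd {n : ℕ} {S : Finset (Finset (Fin n))} {C W : Over SpecC} (j : W ⟶ Pn n)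
    (f : W ⟶ C) [IsClosedImmersion (emb j f)] [IrreducibleSpace W.left]
    (cl : SpecC ⟶ C.left) (e : XS S ⟶ W)
    (he : e ≫ j = XSι S) (hpb : IsPullback e.left (XS S).hom f.left cl)
    (ρ : C.left.presheaf.stalk (cl (IsLocalRing.closedPoint (CommRingCat.of ℂ))) ⟶
      W.left.residueField (genericPoint W.left))
    (hρ : Spec.map ρ ≫ C.left.fromSpecStalk _ =
      W.left.fromSpecResidueField (genericPoint W.left) ≫ f.left)
    (φ : Fin n → (CommRingCat.of (Polynomial ℂ) ⟶ W.left.residueField (genericPoint W.left)))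
    (F : Finset (Fin n))
    (hφ : ∀ i ∈ F, W.left.fromSpecResidueField (genericPoint W.left) ≫ (j ≫ proj i).left =
      Spec.map (φ i) ≫ c1 0)
    (hF : AlgebraicIndependent ρ.hom.range
      (fun i : {i // i ∈ F} => (φ i).hom Polynomial.X)) :
    ∃ F' ∈ S, F ⊆ F' := by
  obtain ⟨V, hV1, hV2, hV3⟩ := exists_valuationSubring ρ.hom _ hF
  let ρV : C.left.presheaf.stalk (cl (IsLocalRing.closedPoint (CommRingCat.of ℂ))) ⟶
    CommRingCat.of V := CommRingCat.ofHom (ρ.hom.codRestrict V.toSubring hV1)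
  have hloc : IsLocalHom ρV.hom := by
    refine ⟨fun r hr => ?_⟩
    by_contra hnu
    have h1 := hV2 r ((IsLocalRing.mem_maximalIdeal r).2 hnu)
    have h2 : ρV.hom r ∈ IsLocalRing.maximalIdeal V := V.coe_mem_nonunits_iff.1 h1
    exact (IsLocalRing.mem_maximalIdeal _).1 h2 hr
  have w : W.left.fromSpecResidueField (genericPoint W.left) ≫ f.left =
      Spec.map (CommRingCat.ofHom (algebraMap V (W.left.residueField (genericPoint W.left)))) ≫
        Spec.map ρV ≫ C.left.fromSpecStalk _ := by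
    rw [← hρ, ← Category.assoc, ← Spec.map_comp]
    rfl
  obtain ⟨l, hl1, hl2⟩ := (existence_f j f ⟨V, W.left.residueField (genericPoint W.left),
    _, _, ⟨w⟩⟩).exists_lift
  dsimp only at hl1 hl2
  have hcl : f.left (l (IsLocalRing.closedPoint V)) =
      cl (IsLocalRing.closedPoint (CommRingCat.of ℂ)) := by
    rw [← Scheme.Hom.comp_apply, hl2, Scheme.Hom.comp_apply]
    have h1 : Spec.map ρV (IsLocalRing.closedPoint V) = IsLocalRing.closedPoint _ :=
      IsLocalRing.comap_closedPoint ρV.hom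
    rw [h1, Scheme.fromSpecStalk_closedPoint]
  obtain ⟨z, hz, -⟩ := Scheme.Pullback.exists_preimage_pullback (f := f.left) (g := cl) _ _ hcl
  let z' : (XS S).left := hpb.isoPullback.inv z
  have hz' : e.left z' = l (IsLocalRing.closedPoint V) := by
    rw [← hz]
    change e.left (hpb.isoPullback.inv z) = _
    rw [← Scheme.Hom.comp_apply, hpb.isoPullback_inv_fst]
  have hj : j.left (l (IsLocalRing.closedPoint V)) ∈ schubertUnion S := by
    rw [← hz', ← Scheme.Hom.comp_apply, ← Over.comp_left, he]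
    exact XSι_mem S z'
  rw [mem_schubertUnion] at hj
  obtain ⟨F', hF', hx⟩ := hj
  refine ⟨F', hF', fun i hi => ?_⟩
  by_contra hi'
  have hy := hx i hi'
  set g : Spec (CommRingCat.of V) ⟶ P1.left := l ≫ (j ≫ proj i).left with hg
  have hy' : g (IsLocalRing.closedPoint V) ∉ P1open := by
    rw [hg, Scheme.Hom.comp_apply, Over.comp_left, Scheme.Hom.comp_apply]
    exact hy
  have hsub : Set.range g ⊆ Set.range (c1 0) := by
    rintro _ ⟨y, rfl⟩
    have h1 : g y ⤳ g (IsLocalRing.closedPoint V) :=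
      (IsLocalRing.specializes_closedPoint y).map g.continuous
    exact h1.mem_open (c1 0).opensRange.2 (mem_opensRange_c1_zero _ hy')
  let ψ : CommRingCat.of (Polynomial ℂ) ⟶ CommRingCat.of V :=
    Spec.preimage (IsOpenImmersion.lift (c1 0) g hsub)
  have hψ : Spec.map ψ ≫ c1 0 = g := by
    rw [Spec.map_preimage, IsOpenImmersion.lift_fac]
  have hψ2 : ψ ≫ CommRingCat.ofHom (algebraMap V (W.left.residueField (genericPoint W.left))) =
      φ i := by
    apply Spec.map_injective
    rw [← cancel_mono (c1 0), Spec.map_comp, Category.assoc, hψ, ← hφ i hi, hg,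
      ← Category.assoc, hl1]
  rw [← hψ, Scheme.Hom.comp_apply, c1_zero_mem_iff, not_not] at hy'
  have h1 : ψ.hom Polynomial.X ∈ IsLocalRing.maximalIdeal V := hy'
  have h2 : (φ i).hom Polynomial.X ∈ V.nonunits := by
    rw [← hψ2]
    exact V.coe_mem_nonunits_iff.2 h1
  exact (hV3 ⟨i, hi⟩).2 h2

end Pool.Agent.Schubert
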